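import Pool.Agent.H93.SM.Iface

set_option autoImplicit false
open Pool.Agent.H75.Perc Metric Set Filter Topology Pool.Agent.H7.UC Pool.Agent.H74.Tri

/-! The expectation along the `z`-chain: basic API. -/

namespace Pool.Agent.H93.SM

theorem tipF_spec {U : Finset Fc} {col : Fc → Bool} {s : Fc} (h : tipF U col = some s) :
    ∃ p, IsTip U col p ∧ ph p = s := by
  unfold tipF at h
  split_ifs at h with h1
  exact ⟨_, h1.choose_spec, Option.some.inj h⟩

theorem tipF_mem {U : Finset Fc} {col : Fc → Bool} {s : Fc} (h : tipF U col = some s) : s ∈ U := by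
  obtain ⟨p, hp, rfl⟩ := tipF_spec h
  exact hp.1

theorem comp_card_lt {U : Finset Fc} {s : Fc} (z : Fc) (h : s ∈ U) :
    (comp (U \ {s}) z).card < U.card := by
  apply Finset.card_lt_card
  refine ⟨(comp_sub _ _).trans Finset.sdiff_subset, fun h1 => ?_⟩
  have := comp_sub _ _ (h1 h)
  simp at this

variable {z : Fc} {stop stop' : Finset Fc → (Fc → Bool) → List Bool → Prop}
  {G G' : Finset Fc → (Fc → Bool) → List Bool → ℝ}

theorem EV_zero (U : Finset Fc) (col : Fc → Bool) (hi : List Bool) :
    EV z stop G 0 U col hi = G U col hi := rfl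

theorem EV_none {n : ℕ} {U : Finset Fc} {col : Fc → Bool} {hi : List Bool}
    (h : tipF U col = none) : EV z stop G n U col hi = G U col hi := by
  cases n with
  | zero => rfl
  | succ n =>
    unfold EV
    rw [h]

theorem EV_stop {n : ℕ} {U : Finset Fc} {col : Fc → Bool} {hi : List Bool} {s : Fc}
    (h : tipF U col = some s) (h1 : stop U col hi ∨ s = z) :
    EV z stop G n U col hi = G U col hi := by
  cases n with
  | zero => rfl
  | succ n =>
    unfold EV
    rw [h]
    simp only
    rw [if_pos h1]

theorem EV_step {n : ℕ} {U : Finset Fc} {col : Fc → Bool} {hi : List Bool} {s : Fc}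
    (h : tipF U col = some s) (h1 : ¬ stop U col hi) (h2 : s ≠ z) :
    EV z stop G (n + 1) U col hi =
      (EV z stop G n (comp (U \ {s}) z) (Function.update col s true) (true :: hi) +
        EV z stop G n (comp (U \ {s}) z) (Function.update col s false) (false :: hi)) / 2 := by
  conv_lhs => unfold EV
  rw [h]
  simp only
  rw [if_neg (by tauto)]

theorem EV_fuel : ∀ (n m : ℕ) (U : Finset Fc) (col : Fc → Bool) (hi : List Bool), U.card ≤ n →
    U.card ≤ m → EV z stop G n U col hi = EV z stop G m U col hi := by
  intro n
  induction n with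
  | zero =>
    intro m U col hi h0 _
    have hU : U = ∅ := Finset.card_eq_zero.1 (by omega)
    have hn : tipF U col = none := by
      cases h : tipF U col with
      | none => rfl
      | some s =>
        have := tipF_mem h
        rw [hU] at this
        simp at this
    rw [EV_none hn, EV_none hn]
  | succ n ih =>
    intro m U col hi h0 h1
    cases hT : tipF U col with
    | none => rw [EV_none hT, EV_none hT]
    | some s =>
      by_cases hs : stop U col hi ∨ s = z
      · rw [EV_stop hT hs, EV_stop hT hs]
      · push Not at hs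
        have hlt := comp_card_lt z (tipF_mem hT)
        cases m with
        | zero => omega
        | succ m =>
          rw [EV_step hT hs.1 hs.2, EV_step hT hs.1 hs.2, ih m _ _ _ (by omega) (by omega),
            ih m _ _ _ (by omega) (by omega)]

/-- the expectation with enough fuel -/
noncomputable def Ev (z : Fc) (stop : Finset Fc → (Fc → Bool) → List Bool → Prop)
    (G : Finset Fc → (Fc → Bool) → List Bool → ℝ) (U : Finset Fc) (col : Fc → Bool)
    (hi : List Bool) : ℝ := EV z stop G U.card U col hi

theorem Ev_none {U : Finset Fc} {col : Fc → Bool} {hi : List Bool}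
    (h : tipF U col = none) : Ev z stop G U col hi = G U col hi := EV_none h

theorem Ev_stop {U : Finset Fc} {col : Fc → Bool} {hi : List Bool} (h1 : stop U col hi) :
    Ev z stop G U col hi = G U col hi := by
  cases h : tipF U col with
  | none => exact Ev_none h
  | some s => exact EV_stop h (Or.inl h1)

theorem Ev_z {U : Finset Fc} {col : Fc → Bool} {hi : List Bool} (h : tipF U col = some z) :
    Ev z stop G U col hi = G U col hi := EV_stop h (Or.inr rfl)

theorem Ev_step {U : Finset Fc} {col : Fc → Bool} {hi : List Bool} {s : Fc}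
    (h : tipF U col = some s) (h1 : ¬ stop U col hi) (h2 : s ≠ z) :
    Ev z stop G U col hi =
      (Ev z stop G (comp (U \ {s}) z) (Function.update col s true) (true :: hi) +
        Ev z stop G (comp (U \ {s}) z) (Function.update col s false) (false :: hi)) / 2 := by
  unfold Ev
  have hlt := comp_card_lt z (tipF_mem h)
  rw [EV_fuel U.card (U.card + 1) U col hi le_rfl (by omega), EV_step h h1 h2,
    EV_fuel U.card (comp (U \ {s}) z).card _ _ _ (by omega) le_rfl,
    EV_fuel U.card (comp (U \ {s}) z).card (comp (U \ {s}) z) (Function.update col s false) _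
      (by omega) le_rfl]

/-- induction along the chain: `P` holds at the ends and is inherited from the two successors. -/
theorem Ev_ind {P : Finset Fc → (Fc → Bool) → List Bool → Prop}
    (hend : ∀ U col hi, (tipF U col = none ∨ stop U col hi ∨ tipF U col = some z) → P U col hi)
    (hstep : ∀ U col hi s, tipF U col = some s → ¬ stop U col hi → s ≠ z →
      P (comp (U \ {s}) z) (Function.update col s true) (true :: hi) →
      P (comp (U \ {s}) z) (Function.update col s false) (false :: hi) → P U col hi) :
    ∀ U col hi, P U col hi := by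
  have key : ∀ (n : ℕ) (U : Finset Fc) (col : Fc → Bool) (hi : List Bool), U.card ≤ n →
      P U col hi := by
    intro n
    induction n with
    | zero =>
      intro U col hi h0
      have hU : U = ∅ := Finset.card_eq_zero.1 (by omega)
      apply hend
      left
      cases h : tipF U col with
      | none => rfl
      | some s =>
        have := tipF_mem h
        rw [hU] at this
        simp at this
    | succ n ih =>
      intro U col hi h0
      cases hT : tipF U col with
      | none => exact hend _ _ _ (Or.inl hT)
      | some s =>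
        by_cases hs : stop U col hi
        · exact hend _ _ _ (Or.inr (Or.inl hs))
        · by_cases hz : s = z
          · subst hz
            exact hend _ _ _ (Or.inr (Or.inr hT))
          · have hlt := comp_card_lt z (tipF_mem hT)
            exact hstep _ _ _ _ hT hs hz (ih _ _ _ (by omega)) (ih _ _ _ (by omega))
  exact fun U col hi => key _ U col hi le_rfl

/-- the states (with history) reachable from `(U0, col0, hi0)` through states that are not stopped -/
inductive Rh (z : Fc) (stop : Finset Fc → (Fc → Bool) → List Bool → Prop) (U0 : Finset Fc)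
    (col0 : Fc → Bool) (hi0 : List Bool) : Finset Fc → (Fc → Bool) → List Bool → Prop
  | refl : Rh z stop U0 col0 hi0 U0 col0 hi0
  | step (U : Finset Fc) (col : Fc → Bool) (hi : List Bool) (s : Fc) (c : Bool) :
      Rh z stop U0 col0 hi0 U col hi → ¬ stop U col hi → tipF U col = some s → s ≠ z →
      Rh z stop U0 col0 hi0 (comp (U \ {s}) z) (Function.update col s c) (c :: hi)

theorem Rh.head {U0 : Finset Fc} {col0 : Fc → Bool} {hi0 : List Bool} {s : Fc} {c : Bool}
    (h1 : ¬ stop U0 col0 hi0) (h2 : tipF U0 col0 = some s) (h3 : s ≠ z) {U : Finset Fc}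
    {col : Fc → Bool} {hi : List Bool}
    (h : Rh z stop (comp (U0 \ {s}) z) (Function.update col0 s c) (c :: hi0) U col hi) :
    Rh z stop U0 col0 hi0 U col hi := by
  induction h with
  | refl => exact Rh.step _ _ _ _ _ Rh.refl h1 h2 h3
  | step U col hi s' c' _ h5 h6 h7 ih => exact Rh.step _ _ _ _ _ ih h5 h6 h7

/-- monotonicity: it is enough to compare at the ends of the chain. -/
theorem Ev_le {U0 : Finset Fc} {col0 : Fc → Bool} {hi0 : List Bool}
    (h : ∀ U col hi, Rh z stop U0 col0 hi0 U col hi →
      (tipF U col = none ∨ stop U col hi ∨ tipF U col = some z) → G U col hi ≤ G' U col hi) :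
    Ev z stop G U0 col0 hi0 ≤ Ev z stop G' U0 col0 hi0 := by
  revert h
  refine Ev_ind (z := z) (stop := stop) (P := fun U0 col0 hi0 =>
    (∀ U col hi, Rh z stop U0 col0 hi0 U col hi →
      (tipF U col = none ∨ stop U col hi ∨ tipF U col = some z) → G U col hi ≤ G' U col hi) →
    Ev z stop G U0 col0 hi0 ≤ Ev z stop G' U0 col0 hi0) ?_ ?_ U0 col0 hi0
  · intro U col hi hend h
    have h1 := h _ _ _ Rh.refl hend
    rcases hend with h2 | h2 | h2
    · rw [Ev_none h2, Ev_none h2]; exact h1
    · rw [Ev_stop h2, Ev_stop h2]; exact h1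
    · rw [Ev_z h2, Ev_z h2]; exact h1
  · intro U col hi s h1 h2 h3 ih1 ih2 h
    rw [Ev_step h1 h2 h3, Ev_step h1 h2 h3]
    have e1 := ih1 fun U' col' hi' hr => h U' col' hi' (hr.head h2 h1 h3)
    have e2 := ih2 fun U' col' hi' hr => h U' col' hi' (hr.head h2 h1 h3)
    linarith

theorem Ev_congr {U0 : Finset Fc} {col0 : Fc → Bool} {hi0 : List Bool}
    (h : ∀ U col hi, Rh z stop U0 col0 hi0 U col hi →
      (tipF U col = none ∨ stop U col hi ∨ tipF U col = some z) → G U col hi = G' U col hi) :
    Ev z stop G U0 col0 hi0 = Ev z stop G' U0 col0 hi0 :=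
  le_antisymm (Ev_le fun U col hi h1 h2 => (h U col hi h1 h2).le)
    (Ev_le fun U col hi h1 h2 => (h U col hi h1 h2).ge)

theorem Ev_lin (a b c : ℝ) (U0 : Finset Fc) (col0 : Fc → Bool) (hi0 : List Bool) :
    Ev z stop (fun U col hi => a * G U col hi + b * G' U col hi + c) U0 col0 hi0 =
      a * Ev z stop G U0 col0 hi0 + b * Ev z stop G' U0 col0 hi0 + c := by
  refine Ev_ind (z := z) (stop := stop) (P := fun U0 col0 hi0 =>
    Ev z stop (fun U col hi => a * G U col hi + b * G' U col hi + c) U0 col0 hi0 =
      a * Ev z stop G U0 col0 hi0 + b * Ev z stop G' U0 col0 hi0 + c) ?_ ?_ U0 col0 hi0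
  · intro U col hi hend
    rcases hend with h2 | h2 | h2
    · rw [Ev_none h2, Ev_none h2, Ev_none h2]
    · rw [Ev_stop h2, Ev_stop h2, Ev_stop h2]
    · rw [Ev_z h2, Ev_z h2, Ev_z h2]
  · intro U col hi s h1 h2 h3 ih1 ih2
    rw [Ev_step h1 h2 h3, Ev_step h1 h2 h3, Ev_step h1 h2 h3, ih1, ih2]
    ring

theorem Ev_const (c : ℝ) (U0 : Finset Fc) (col0 : Fc → Bool) (hi0 : List Bool) :
    Ev z stop (fun _ _ _ => c) U0 col0 hi0 = c := by
  have := Ev_lin (z := z) (stop := stop) (G := fun _ _ _ => 0) (G' := fun _ _ _ => 0) 0 0 c U0 col0 hi0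
  simpa using this

/-- supermartingale comparison: if `H` decreases in mean before the stopping and `G ≤ H` at the end,
then the expectation of `G` at the end is at most `H`. -/
theorem Ev_super {H : Finset Fc → (Fc → Bool) → List Bool → ℝ} {U0 : Finset Fc} {col0 : Fc → Bool}
    {hi0 : List Bool}
    (hend : ∀ U col hi, Rh z stop U0 col0 hi0 U col hi →
      (tipF U col = none ∨ stop U col hi ∨ tipF U col = some z) → G U col hi ≤ H U col hi)
    (hst : ∀ U col hi s, Rh z stop U0 col0 hi0 U col hi → ¬ stop U col hi → tipF U col = some s →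
      s ≠ z → (H (comp (U \ {s}) z) (Function.update col s true) (true :: hi) +
        H (comp (U \ {s}) z) (Function.update col s false) (false :: hi)) / 2 ≤ H U col hi) :
    Ev z stop G U0 col0 hi0 ≤ H U0 col0 hi0 := by
  revert hend hst
  refine Ev_ind (z := z) (stop := stop) (P := fun U0 col0 hi0 =>
    (∀ U col hi, Rh z stop U0 col0 hi0 U col hi →
      (tipF U col = none ∨ stop U col hi ∨ tipF U col = some z) → G U col hi ≤ H U col hi) →
    (∀ U col hi s, Rh z stop U0 col0 hi0 U col hi → ¬ stop U col hi → tipF U col = some s →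
      s ≠ z → (H (comp (U \ {s}) z) (Function.update col s true) (true :: hi) +
        H (comp (U \ {s}) z) (Function.update col s false) (false :: hi)) / 2 ≤ H U col hi) →
    Ev z stop G U0 col0 hi0 ≤ H U0 col0 hi0) ?_ ?_ U0 col0 hi0
  · intro U col hi hend h _
    have h1 := h _ _ _ Rh.refl hend
    rcases hend with h2 | h2 | h2
    · rw [Ev_none h2]; exact h1
    · rw [Ev_stop h2]; exact h1
    · rw [Ev_z h2]; exact h1
  · intro U col hi s h1 h2 h3 ih1 ih2 h h'
    rw [Ev_step h1 h2 h3]
    have e1 := ih1 (fun U' col' hi' hr => h U' col' hi' (hr.head h2 h1 h3))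
      (fun U' col' hi' s' hr => h' U' col' hi' s' (hr.head h2 h1 h3))
    have e2 := ih2 (fun U' col' hi' hr => h U' col' hi' (hr.head h2 h1 h3))
      (fun U' col' hi' s' hr => h' U' col' hi' s' (hr.head h2 h1 h3))
    have e3 := h' U col hi s Rh.refl h2 h1 h3
    linarith

end Pool.Agent.H93.SM
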