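import Pool.Agent.H93.SM.Ev

set_option autoImplicit false
open Pool.Agent.H75.Perc Metric Set Filter Topology Pool.Agent.H7.UC Pool.Agent.H74.Tri

/-! Further closed statements of the module SM: chart step, micro-step, potential step. -/

namespace Pool.Agent.H93.SM

/-- log-decrease of the conformal radius from `U0` to `U` -/
noncomputable def lS (U0 U : Finset Fc) (z : Fc) : ℝ := Real.log (crad U0 z / crad U z)

/-- CU: charts at the same point differ by a rotation. -/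
def CU : Prop := ∀ (D : Set ℂ) (φ ψ : ℂ → ℂ), DiscChart D φ → DiscChart D ψ → φ 0 = ψ 0 →
  deriv φ 0 ≠ 0 ∧ ∃ c : ℂ, ‖c‖ = 1 ∧ (∀ w ∈ closedBall (0 : ℂ) 1, ψ w = φ (c * w)) ∧
    deriv ψ 0 = c * deriv φ 0

/-- VC: a vertex in the closure of the domain touches the domain. -/
def VC : Prop := ∀ (U : Finset Fc) (v : Vx), (pv v ∈ closure (reg U) → inV U v) ∧
  ∀ k, fc v k ∉ U → pv v ∉ reg U

/-- SL (chart step): the chart of the domain after the face `h` at the boundary vertex `a` is removed. -/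
def SL : Prop := ∀ δ > (0 : ℝ), δ ≤ 1 / 10 → ∃ K : ℝ, ∀ (U : Finset Fc) (z h : Fc) (a : Vx)
  (ka : Fin 3) (φ : ℂ → ℂ) (p : ℂ), IsDom U → z ∈ U → h ≠ z → One U a ka → fc a ka = h →
  K ≤ dst U z → DiscChart (reg U) φ → φ 0 = ctr z → ‖p‖ = 1 → φ p = pv a →
  (∀ w ∈ closedBall (0 : ℂ) 1, φ w ∈ cell h → ‖w - p‖ ≤ δ) ∧
  ∃ (φ' T : ℂ → ℂ) (S : ℝ), DiscChart (reg (comp (U \ {h}) z)) φ' ∧ φ' 0 = ctr z ∧
    deriv φ' 0 = (Real.exp (-S) : ℝ) * deriv φ 0 ∧ crad (comp (U \ {h}) z) z = Real.exp (-S) * crad U z ∧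
    MapsTo T (closedBall 0 1) (closedBall 0 1) ∧ (∀ w ∈ closedBall (0 : ℂ) 1, φ' w = φ (T w)) ∧
    ContinuousOn T (closedBall 0 1) ∧ InjOn T (closedBall 0 1) ∧ DifferentiableOn ℂ T (ball 0 1) ∧
    MapsTo T (ball 0 1) (ball 0 1) ∧ T 0 = 0 ∧ deriv T 0 = (Real.exp (-S) : ℝ) ∧
    (∀ w ∈ ball (0 : ℂ) 1, δ < ‖w - p‖ → w ∈ T '' ball 0 1) ∧
    (∀ q : ℂ, ‖q‖ = 1 → δ < ‖q - p‖ → ∃ q' : ℂ, ‖q'‖ = 1 ∧ T q' = q)

/-- MS (micro-step). `Lf` = end of the micro-step, `W` = displacement of the tip (angle), `lS` =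
decrease of the logarithm of the conformal radius, `x` = half of the angle between tip and exit. -/
def MS : Prop := ∀ κ0 > (0 : ℝ), ∃ C r0 : ℝ, 0 < C ∧ 0 < r0 ∧ ∀ r : ℝ, 0 < r → r ≤ r0 → ∃ K : ℝ,
  ∀ (U0 : Finset Fc) (col0 : Fc → Bool) (z : Fc), St U0 col0 → z ∈ U0 → K ≤ dst U0 z →
  κ0 ≤ sn U0 col0 z → ∃ (x0 : ℝ) (Lf : Finset Fc → (Fc → Bool) → Prop)
    (W : Finset Fc → (Fc → Bool) → ℝ),
  0 < x0 ∧ x0 < Real.pi ∧ Real.sin x0 = sn U0 col0 z ∧ ¬ Lf U0 col0 ∧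
  (∀ U col hi, Rh z (fun U col _ => Lf U col) U0 col0 [] U col hi →
    St U col ∧ z ∈ U ∧ (∃ s, tipF U col = some s ∧ s ≠ z) ∧ 0 < crad U z ∧
    0 ≤ lS U0 U z ∧ lS U0 U z ≤ 2 * r ^ 2 ∧ |W U col| ≤ 2 * r ∧
    (Lf U col → r ^ 2 ≤ W U col ^ 2 + lS U0 U z) ∧
    ∃ x, sn U col z = Real.sin x ∧
      |x - (x0 + W U col / 2 + lS U0 U z * Real.cot x0 / 2)| ≤ C * r ^ 3) ∧
  |Ev z (fun U col _ => Lf U col) (fun U col _ => W U col) U0 col0 []| ≤ C * r ^ 3 ∧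
  |Ev z (fun U col _ => Lf U col) (fun U col _ => W U col ^ 2 - 6 * lS U0 U z) U0 col0 []| ≤
    C * r ^ 3

/-- the function `16 sin^(1/3) - sin^2` -/
noncomputable def FF (s : ℝ) : ℝ := 16 * s ^ ((1 / 3) : ℝ) - s ^ 2

/-- PS (potential step): consequences of MS for the two potentials. -/
def PS : Prop := ∀ κ0 > (0 : ℝ), ∃ C r0 : ℝ, 0 < C ∧ 0 < r0 ∧ ∀ r : ℝ, 0 < r → r ≤ r0 → ∃ K : ℝ,
  ∀ (U0 : Finset Fc) (col0 : Fc → Bool) (z : Fc), St U0 col0 → z ∈ U0 → K ≤ dst U0 z →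
  κ0 ≤ sn U0 col0 z → ∃ Lf : Finset Fc → (Fc → Bool) → Prop, ¬ Lf U0 col0 ∧
  (∀ U col hi, Rh z (fun U col _ => Lf U col) U0 col0 [] U col hi →
    St U col ∧ z ∈ U ∧ (∃ s, tipF U col = some s ∧ s ≠ z) ∧ 0 < crad U z ∧
    0 ≤ lS U0 U z ∧ lS U0 U z ≤ 2 * r ^ 2 ∧ |sn U col z - sn U0 col0 z| ≤ C * r) ∧
  r ^ 2 / 8 ≤ Ev z (fun U col _ => Lf U col) (fun U _ _ => lS U0 U z) U0 col0 [] ∧
  |Ev z (fun U col _ => Lf U col) (fun U col _ => gv U col z) U0 col0 [] - gv U0 col0 z| ≤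
    C * r ^ 3 * crad U0 z ^ (-(1 / 4) : ℝ) ∧
  Ev z (fun U col _ => Lf U col) (fun U col _ => FF (sn U col z)) U0 col0 [] ≤
    FF (sn U0 col0 z) - 2 * Ev z (fun U col _ => Lf U col) (fun U _ _ => lS U0 U z) U0 col0 []

/-- CEN: from a state with sine at least `s0` the chain comes near `z` with positive probability. -/
def CEN : Prop := ∀ s0 > (0 : ℝ), ∀ l : ℝ, 1 ≤ l → ∃ c > (0 : ℝ), ∃ K : ℝ, ∀ ρ : ℝ, K ≤ ρ →
  ∀ (U : Finset Fc) (col : Fc → Bool) (z : Fc), St U col → z ∈ U → ρ / 2 ≤ dst U z →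
  dst U z ≤ 2 * ρ → s0 ≤ sn U col z →
  c ≤ EV z (fun U' _ _ => dst U' z < ρ / l) (fun U' _ _ => by
    classical exact if dst U' z < ρ / l then 1 else 0) U.card U col []

end Pool.Agent.H93.SM
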