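import Pool.Agent.H7.UC.IfaceA
import Pool.Agent.H74.Tri.Defs

set_option autoImplicit false
open Pool.Agent.H75.Perc Metric Set Filter Topology Pool.Agent.H7.UC Pool.Agent.H74.Tri

/-!
# MP_2e6055, module SM: closed statements

State for the face `z` (helper74's `Tri`): `(U, ω)` with `St U ω`, `z ∈ U`; the colours `ω` off `U`
count.  The `z`-chain: reveal the face `s = ph p` ahead of the tip `p`, new state
`(comp (U \ {s}) z, update ω s c)`.
-/

namespace Pool.Agent.H93.SM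

/-- distance of the face to the complement of the domain -/
noncomputable def dst (U : Finset Fc) (z : Fc) : ℝ := infDist (ctr z) (reg U)ᶜ

/-- conformal radius -/
noncomputable def crad (U : Finset Fc) (z : Fc) : ℝ := by
  classical exact if h : ∃ φ, DiscChart (reg U) φ ∧ φ 0 = ctr z then ‖deriv h.choose 0‖ else 0

/-- a chart at `z` with the positions of two boundary vertices -/
def PosP (U : Finset Fc) (z : Fc) (v w : Vx) (t : (ℂ → ℂ) × ℂ × ℂ) : Prop :=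
  DiscChart (reg U) t.1 ∧ t.1 0 = ctr z ∧ ‖t.2.1‖ = 1 ∧ ‖t.2.2‖ = 1 ∧ t.1 t.2.1 = pv v ∧
    t.1 t.2.2 = pv w

/-- `sin (π h)`, where `h` is the harmonic measure of the boundary arc from `v` to `w` -/
noncomputable def snv (U : Finset Fc) (z : Fc) (v w : Vx) : ℝ := by
  classical exact if h : ∃ t, PosP U z v w t then ‖h.choose.2.1 - h.choose.2.2‖ / 2 else 0

/-- tip vertex and exit vertex -/
def TipE (U : Finset Fc) (col : Fc → Bool) (t : Vx × Vx) : Prop :=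
  ∃ p q : Pos, IsTip U col p ∧ p.1 = t.1 ∧ IsExit U col q ∧ nb q.1 q.2 = t.2

/-- the sine of the state (`0` if there is no tip) -/
noncomputable def sn (U : Finset Fc) (col : Fc → Bool) (z : Fc) : ℝ := by
  classical exact if h : ∃ t, TipE U col t then snv U z h.choose.1 h.choose.2 else 0

/-- the Green function of SLE(6) -/
noncomputable def gv (U : Finset Fc) (col : Fc → Bool) (z : Fc) : ℝ :=
  crad U z ^ (-(1 / 4) : ℝ) * sn U col z ^ ((1 / 3) : ℝ)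

/-- the face revealed in the state -/
noncomputable def tipF (U : Finset Fc) (col : Fc → Bool) : Option Fc := by
  classical exact if h : ∃ p, IsTip U col p then some (ph h.choose) else none

/-- Expectation of `G` at the end of the `z`-chain stopped by `stop` (a predicate of the state and of
the history of the revealed colours); the chain also ends when there is no tip or when the tip face
is `z`.  `n` = fuel (`U.card` is enough). -/
noncomputable def EV (z : Fc) (stop : Finset Fc → (Fc → Bool) → List Bool → Prop)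
    (G : Finset Fc → (Fc → Bool) → List Bool → ℝ) :
    ℕ → Finset Fc → (Fc → Bool) → List Bool → ℝ
  | 0, U, col, hi => G U col hi
  | n + 1, U, col, hi => by
      classical exact
        match tipF U col with
        | none => G U col hi
        | some s =>
          if stop U col hi ∨ s = z then G U col hi
          else (EV z stop G n (comp (U \ {s}) z) (Function.update col s true) (true :: hi) +
            EV z stop G n (comp (U \ {s}) z) (Function.update col s false) (false :: hi)) / 2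

/-- **OS** (one-step supermartingale): `E g(D_τ) ≤ g(D) + e ρ^{-1/4}` for all stopping times before the
distance is less than `ρ/ℓ` (the last state is included). -/
def OS : Prop := ∀ l : ℝ, 1 ≤ l → ∀ e > (0 : ℝ), ∃ K : ℝ, 0 < K ∧ ∀ ρ : ℝ, K ≤ ρ →
  ∀ (U : Finset Fc) (col : Fc → Bool) (z : Fc), St U col → z ∈ U → ρ / 2 ≤ dst U z →
  dst U z ≤ 2 * ρ → ∀ stop : Finset Fc → (Fc → Bool) → List Bool → Prop,
  (∀ U' col' hi', dst U' z < ρ / l → stop U' col' hi') →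
  EV z stop (fun U' col' _ => gv U' col' z) U.card U col [] ≤ gv U col z + e * ρ ^ (-(1 / 4) : ℝ)

/-- **OS'**: the probability that the distance becomes less than `ρ/ℓ`. -/
def OS' : Prop := ∃ C0 : ℝ, ∀ l : ℝ, 100 ≤ l → ∀ e > (0 : ℝ), ∃ K : ℝ, 0 < K ∧ ∀ ρ : ℝ, K ≤ ρ →
  ∀ (U : Finset Fc) (col : Fc → Bool) (z : Fc), St U col → z ∈ U → ρ / 2 ≤ dst U z →
  dst U z ≤ 2 * ρ →
  EV z (fun U' _ _ => dst U' z < ρ / l) (fun U' _ _ => by
    classical exact if dst U' z < ρ / l then 1 else 0) U.card U col [] ≤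
    C0 * l ^ (-(1 / 4) : ℝ) * (ρ ^ ((1 / 4) : ℝ) * gv U col z + e)

/-! ## Modules -/

/-- RAD: a conformal map of the disc onto the disc minus a hull in `B(p, δ)`. -/
def RAD : Prop := ∃ C : ℝ, 0 < C ∧ ∀ κ > (0 : ℝ), ∃ Cκ δ0 : ℝ, 0 < δ0 ∧ ∀ δ : ℝ, 0 < δ → δ ≤ δ0 →
  ∀ (T : ℂ → ℂ) (p : ℂ) (S : ℝ), ContinuousOn T (closedBall 0 1) → InjOn T (closedBall 0 1) →
  DifferentiableOn ℂ T (ball 0 1) → MapsTo T (ball 0 1) (ball 0 1) → T 0 = 0 →
  deriv T 0 = (Real.exp (-S) : ℝ) → ‖p‖ = 1 →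
  (∀ w ∈ ball (0 : ℂ) 1, δ < ‖w - p‖ → w ∈ T '' ball 0 1) →
  0 ≤ S ∧ S ≤ C * δ ^ 2 ∧ (∀ ξ : ℂ, ‖ξ‖ = 1 → ‖T ξ - p‖ ≤ δ → ‖ξ - p‖ ≤ C * δ) ∧
  (∀ ξ : ℂ, ‖ξ‖ = 1 → κ ≤ ‖T ξ - p‖ → κ / 2 ≤ ‖ξ - p‖ ∧
    ‖ξ - T ξ * Complex.exp (S * (p + ξ) / (p - ξ))‖ ≤ Cκ * S * δ)

/-- vertex with exactly one face in `U` -/
def One (U : Finset Fc) (a : Vx) (k : Fin 3) : Prop :=
  fc a k ∈ U ∧ fc a (k + 1) ∉ U ∧ fc a (k + 2) ∉ U

/-- edge between `h` and a face of `U'` -/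
def newE (U' : Finset Fc) (h : Fc) (e : Ed) : Prop :=
  (lf e = h ∧ rf e ∈ U') ∨ (lf e ∈ U' ∧ rf e = h)

/-- `M'` is the marked domain obtained from `M` when the face `h` at the mark `j` gets the colour `c`
(black = joins the arc before the mark, white = joins the arc after it), new mark `s`. -/
def IsStep {U U' : Finset Fc} (h : Fc) {n : ℕ} [NeZero n] (M : Marks U n) (j : Fin n) (c : Bool)
    (s : Vx) (M' : Marks U' n) : Prop :=
  (∀ i, M'.u i = if i = j then s else M.u i) ∧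
  ∀ i e, e ∈ M'.C i ↔ (e ∈ M.C i ∧ isB U' e) ∨
    (newE U' h e ∧ ((i = j ∧ c = false) ∨ (i + 1 = j ∧ c = true)))

/-- STEP (planarity): revealing the face at the mark `a`. The new marks `s true`, `s false` do not
depend on the other marks. -/
def STEP : Prop := ∀ (U : Finset Fc) (z h : Fc) (a : Vx) (ka : Fin 3), IsDom U → z ∈ U → h ≠ z →
  One U a ka → fc a ka = h → IsDom (comp (U \ {h}) z) ∧ ∃ s : Bool → Vx,
  ∀ (n : ℕ) (hn : 2 ≤ n), haveI : NeZero n := ⟨by omega⟩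
  ∀ (M : Marks U n) (j : Fin n), M.u j = a →
  (∀ i, i ≠ j → ∃ k, fc (M.u i) k ∈ comp (U \ {h}) z) →
  ∀ c : Bool, ∃ M' : Marks (comp (U \ {h}) z) n, IsStep h M j c (s c) M'

/-- CR: the crossing probability is a martingale of the exploration. -/
def CR : Prop := ∀ (U : Finset Fc) (z h : Fc) (a : Vx) (ka : Fin 3), IsDom U → z ∈ U → h ≠ z →
  One U a ka → fc a ka = h → ∀ (M : Marks U 4), M.u 1 = a →
  (∀ i, i ≠ 1 → ∃ k, fc (M.u i) k ∈ comp (U \ {h}) z) →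
  ∀ (s s' : Vx) (M1 M0 : Marks (comp (U \ {h}) z) 4), IsStep h M 1 true s M1 →
  IsStep h M 1 false s' M0 →
  Pr U (Cross U (M.C 0) (M.C 2)) = (Pr (comp (U \ {h}) z) (Cross (comp (U \ {h}) z) (M1.C 0) (M1.C 2)) +
    Pr (comp (U \ {h}) z) (Cross (comp (U \ {h}) z) (M0.C 0) (M0.C 2))) / 2

/-- ECT: either there are exactly one tip and one exit and the white / black boundary edges are the
arcs of two marks, or there is neither tip nor exit. -/
def ECT : Prop := ∀ (U : Finset Fc) (col : Fc → Bool), St U col →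
  (∃ (M : Marks U 2) (p q : Pos), IsTip U col p ∧ IsExit U col q ∧ p.1 = M.u 0 ∧ nb q.1 q.2 = M.u 1 ∧
    (∀ p', IsTip U col p' → p' = p) ∧ (∀ q', IsExit U col q' → q' = q) ∧
    (∀ e, isB U e → ∀ f, (f = lf e ∨ f = rf e) → f ∉ U → (e ∈ M.C 0 ↔ col f = false))) ∨
  ((∀ p, ¬ IsTip U col p) ∧ (∀ p, ¬ IsExit U col p))

/-- ECS: one step of the chain, in terms of the marks (from STEP and ECT): the new state is a state,
its tip is the vertex `s c` of STEP, if the exit is not cut off. -/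
def ECS : Prop := ∀ (U : Finset Fc) (col : Fc → Bool) (z : Fc) (p q : Pos), St U col → z ∈ U →
  IsTip U col p → IsExit U col q → ph p ≠ z → (∀ c, St (comp (U \ {ph p}) z) (Function.update col (ph p) c)) ∧
  (pb q ∈ comp (U \ {ph p}) z → ∀ (s : Bool → Vx),
    (∀ (M : Marks U 2), M.u 0 = p.1 → (∃ k, fc (M.u 1) k ∈ comp (U \ {ph p}) z) → ∀ c,
      ∃ M' : Marks (comp (U \ {ph p}) z) 2, IsStep (ph p) M 0 c (s c) M') →
    ∀ c, ∃ p' q' : Pos, IsTip (comp (U \ {ph p}) z) (Function.update col (ph p) c) p' ∧ p'.1 = s c ∧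
      IsExit (comp (U \ {ph p}) z) (Function.update col (ph p) c) q' ∧ nb q'.1 q'.2 = nb q.1 q.2)

/-- ARC: marks with given vertices. -/
def ARC : Prop := ∀ (U : Finset Fc) (a x y w : Vx) (ka kx ky kw : Fin 3), IsDom U → One U a ka →
  One U x kx → One U y ky → One U w kw → a ≠ x → a ≠ y → a ≠ w → x ≠ y → x ≠ w → y ≠ w →
  ∃ M : Marks U 4, M.u 1 = a ∧ ({M.u 0, M.u 2, M.u 3} : Set Vx) = {x, y, w}

/-- CYC: the positions of four marks are in cyclic order. -/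
def CYC : Prop := ∀ (U : Finset Fc) (M : Marks U 4) (φ : ℂ → ℂ) (p : Fin 4 → ℂ), IsDom U →
  DiscChart (reg U) φ → (∀ j, ‖p j‖ = 1 ∧ φ (p j) = pv (M.u j)) →
  0 < (crossR (p 0) (p 1) (p 2) (p 3)).re ∧ (crossR (p 0) (p 1) (p 2) (p 3)).re < 1

/-- FS: bounded connected sets touching the boundary are small in the chart. -/
def FS : Prop := ∀ δ > (0 : ℝ), ∃ K : ℝ, ∀ (U : Finset Fc) (φ : ℂ → ℂ) (z : ℂ) (R : ℝ), IsDom U →
  DiscChart (reg U) φ → φ 0 = z → ball z R ⊆ reg U → K ≤ R → ∀ Q : Set ℂ, IsPreconnected Q →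
  Q ⊆ closure (reg U) → (∀ x ∈ Q, ∀ y ∈ Q, ‖x - y‖ ≤ 8) → (Q ∩ (reg U)ᶜ).Nonempty →
  ∀ w ∈ closedBall (0 : ℂ) 1, ∀ w' ∈ closedBall (0 : ℂ) 1, φ w ∈ Q → φ w' ∈ Q → ‖w - w'‖ ≤ δ

/-- VX: vertices with one face are dense in the chart. -/
def VX : Prop := ∀ δ > (0 : ℝ), ∃ K : ℝ, ∀ (U : Finset Fc) (φ : ℂ → ℂ) (z : ℂ) (R : ℝ), IsDom U →
  DiscChart (reg U) φ → φ 0 = z → ball z R ⊆ reg U → K ≤ R → ∀ q : ℂ, ‖q‖ = 1 →
  ∃ (v : Vx) (k : Fin 3) (p : ℂ), One U v k ∧ ‖p‖ = 1 ∧ φ p = pv v ∧ ‖p - q‖ ≤ δ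

/-- TL: removing a face. -/
def TL : Prop := ∀ (U : Finset Fc) (z h : Fc), IsDom U → z ∈ U → h ∈ U → h ≠ z →
  reg (comp (U \ {h}) z) ⊆ reg U ∧ closure (reg (comp (U \ {h}) z)) ⊆ closure (reg U) ∧
  ∀ Q : Set ℂ, IsPreconnected Q → Q ⊆ reg U → Disjoint Q (cell h) → ctr z ∈ Q →
    Q ⊆ reg (comp (U \ {h}) z)

/-- BD (bad states): if the sine is small it stays small and the distance does not drop. -/
def BD : Prop := ∀ κ1 > (0 : ℝ), ∀ e > (0 : ℝ), ∃ κ0 > (0 : ℝ), ∃ K : ℝ, ∀ (U : Finset Fc)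
  (col : Fc → Bool) (z : Fc), St U col → z ∈ U → K ≤ dst U z → sn U col z ≤ κ0 →
  EV z (fun U' col' _ => dst U' z < dst U z / 8 ∨ κ1 ≤ sn U' col' z) (fun U' col' _ => by
    classical exact if dst U' z < dst U z / 8 ∨ κ1 ≤ sn U' col' z then 1 else 0) U.card U col [] ≤ e

/-- `crossR` of four points of the circle given by angles -/
noncomputable def lam (w t1 t2 t3 : ℝ) : ℝ :=
  Real.sin ((w - t1) / 2) * Real.sin ((t3 - t2) / 2) /
    (Real.sin ((t2 - t1) / 2) * Real.sin ((t3 - w) / 2))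

/-- coefficient `b + c - a` -/
noncomputable def mco (t1 t2 t3 : ℝ) : ℝ :=
  Real.cot (t3 / 2) + Real.cot (t2 / 2) + Real.cot (t1 / 2)

/-- CE (expansion of Cardy's function near the configurations with tip `1` and marks at the angles
`t1 ∈ {-π/2, -2π/3}`, `t2 = π/2`, `t3 = π`). -/
def CE : Prop := ∃ η c C : ℝ, 0 < η ∧ 0 < c ∧ ∀ t1 t2 t3 : ℝ,
  (|t1 + Real.pi / 2| ≤ η ∨ |t1 + 2 * Real.pi / 3| ≤ η) → |t2 - Real.pi / 2| ≤ η →
  |t3 - Real.pi| ≤ η → ∃ D : ℝ, c ≤ D ∧ ∀ r W S t1' t2' t3' : ℝ, 0 < r → r ≤ η → |W| ≤ 2 * r →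
  0 ≤ S → S ≤ 2 * r ^ 2 → |t1' - t1 - S * Real.cot (t1 / 2)| ≤ r ^ 3 →
  |t2' - t2 - S * Real.cot (t2 / 2)| ≤ r ^ 3 → |t3' - t3 - S * Real.cot (t3 / 2)| ≤ r ^ 3 →
  |Pool.Agent.H13.Q1.Four.cardy (lam W t1' t2' t3') -
    Pool.Agent.H13.Q1.Four.cardy (lam 0 t1 t2 t3) - D * (W - mco t1 t2 t3 * (S - W ^ 2 / 6))| ≤
    C * r ^ 3

/-- CH: the quantities do not depend on the chart. -/
def CH : Prop := ∀ (U : Finset Fc) (z : Fc), IsDom U → z ∈ U →
  (∃ φ, DiscChart (reg U) φ ∧ φ 0 = ctr z) ∧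
  (∀ φ, DiscChart (reg U) φ → φ 0 = ctr z → crad U z = ‖deriv φ 0‖ ∧
    (∀ v w p q, ‖p‖ = 1 → ‖q‖ = 1 → φ p = pv v → φ q = pv w → snv U z v w = ‖p - q‖ / 2) ∧
    (∀ v k, inV U v → fc v k ∉ U → ∃ p, ‖p‖ = 1 ∧ φ p = pv v)) ∧
  ball (ctr z) (dst U z) ⊆ reg U ∧ 1 / 2 ≤ dst U z ∧ dst U z ≤ crad U z ∧ crad U z ≤ 4 * dst U z

/-- HS (length-area for the radii of a chart): angles `ξ` whose radius crosses an annulus have small
measure. -/
def HS : Prop := ∃ C : ℝ, ∀ (U : Finset Fc) (φ : ℂ → ℂ), IsDom U → DiscChart (reg U) φ →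
  ∀ (x : ℂ) (r R : ℝ), 0 < r → r < R → ∀ J : Set ℝ, J ⊆ Icc 0 (2 * Real.pi) → MeasurableSet J →
  ((∀ t ∈ J, ‖φ (Complex.exp (t * Complex.I)) - x‖ ≤ r ∧
      R ≤ ‖φ (Complex.exp (t * Complex.I) / 2) - x‖) ∨
   (∀ t ∈ J, R ≤ ‖φ (Complex.exp (t * Complex.I)) - x‖ ∧
      ‖φ (Complex.exp (t * Complex.I) / 2) - x‖ ≤ r)) →
  (MeasureTheory.volume J).toReal ≤ C / Real.sqrt (Real.log (R / r))

end Pool.Agent.H93.SM
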