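import Pool.Agent.H93.SM.MS3

set_option autoImplicit false
open Pool.Agent.H75.Perc Metric Set Filter Topology Pool.Agent.H7.UC Pool.Agent.H74.Tri
open Pool.Agent.H93.SM.R (ee kk)

/-! Assembly of MS from the geometric half (`geo`) and the probabilistic half (`MU`). -/

namespace Pool.Agent.H93.SM

theorem sn_eq_snv (hE : ECT) {U : Finset Fc} {col : Fc → Bool} (z : Fc) (h : St U col) {p q : Pos}
    (hp : IsTip U col p) (hq : IsExit U col q) :
    sn U col z = snv U z p.1 (nb q.1 q.2) := by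
  have h1 : ∃ t, TipE U col t := ⟨(p.1, nb q.1 q.2), p, q, hp, rfl, hq, rfl⟩
  unfold sn
  rw [dif_pos h1]
  obtain ⟨p', q', h2, h3, h4, h5⟩ := h1.choose_spec
  rw [← h3, ← h5, tip_unique hE h hp h2, exit_unique hE h hq h4]

theorem sn_eq (hE : ECT) (hCH : CH) {U : Finset Fc} {col : Fc → Bool} {z : Fc} (h : St U col)
    (hz : z ∈ U) {p q : Pos} (hp : IsTip U col p) (hq : IsExit U col q) {φ : ℂ → ℂ}
    (hφ : DiscChart (reg U) φ) (h0 : φ 0 = ctr z) {A B : ℂ} (hA : ‖A‖ = 1) (hB : ‖B‖ = 1)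
    (hA2 : φ A = pv p.1) (hB2 : φ B = pv (nb q.1 q.2)) : sn U col z = ‖A - B‖ / 2 := by
  rw [sn_eq_snv hE z h hp hq]
  exact ((hCH U z h.dom hz).2.1 φ hφ h0).2.1 _ _ A B hA hB hA2 hB2

theorem Data.mono {U0 : Finset Fc} {z : Fc} {φ0 : ℂ → ℂ} {α : ℝ} {q0 : Pos} {κ κ' C r : ℝ}
    {U : Finset Fc} {col : Fc → Bool} {φ : ℂ → ℂ} {W S : ℝ} (hκ : κ ≤ κ')
    (h : Data U0 z φ0 α q0 κ C r U col φ W S) : Data U0 z φ0 α q0 κ' C r U col φ W S :=
  { h with mrk := fun v k t hv ht hφ => h.mrk v k t hv (hκ.trans ht) hφ }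

theorem ms (hMU : MU) (hRAD : RAD) (hSL : SL) (hSt : Pool.Agent.H7.SM.STEP') (hECT : ECT)
    (hECS : ECS) (hCH : CH) (hCU : CU) (hVC : VC) : MS := by
  intro κ0 hκ0
  set κ : ℝ := min κ0 (1 / 2) with hκdef
  have hκ : 0 < κ := by positivity
  have hκ1 : κ ≤ 1 / 2 := min_le_right _ _
  have hκ2 : κ ≤ κ0 := min_le_left _ _
  obtain ⟨C, r0, hC, hr0, hgeo⟩ := geo hRAD hSL hSt hECT hECS hCH hCU hVC κ hκ (by linarith)
  obtain ⟨C', r0', hC', hr0', hmu⟩ := hMU C hC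
  refine ⟨max C C', min (min r0 r0') (min (κ / 4) (1 / (C + 4))), by positivity, by positivity, ?_⟩
  intro r hr hrr
  have hr1 : r ≤ r0 := hrr.trans ((min_le_left _ _).trans (min_le_left _ _))
  have hr2 : r ≤ r0' := hrr.trans ((min_le_left _ _).trans (min_le_right _ _))
  have hr3 : r ≤ κ / 4 := hrr.trans ((min_le_right _ _).trans (min_le_left _ _))
  have hr4 : r ≤ 1 / (C + 4) := hrr.trans ((min_le_right _ _).trans (min_le_right _ _))
  have hCr : C * r ≤ 1 := by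
    rw [le_div_iff₀ (by positivity)] at hr4
    nlinarith
  obtain ⟨K1, hK1⟩ := hmu r hr hr2
  obtain ⟨K2, hK2⟩ := hgeo r hr hr1 K1
  refine ⟨K2, ?_⟩
  intro U0 col0 z hst hz hdst hsn
  have hTE : ∃ t, TipE U0 col0 t := by
    by_contra hcon
    unfold sn at hsn
    rw [dif_neg hcon] at hsn
    linarith
  obtain ⟨_, p0, q0, hp0, _, hq0, _⟩ := hTE
  obtain ⟨⟨φ0, hφ0, hφz⟩, hch, _, hd1, hd2, hd3⟩ := hCH U0 z hst.dom hz
  have hone0 := tip_one hp0
  obtain ⟨A0, hA0, hA0'⟩ := (hch φ0 hφ0 hφz).2.2 p0.1 (p0.2 + 1) ⟨p0.2, hone0.1⟩ hone0.2.1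
  have honeq := exit_one hq0
  obtain ⟨B0, hB0, hB0'⟩ := (hch φ0 hφ0 hφz).2.2 (nb q0.1 q0.2) (q0.2 + 1) ⟨q0.2, honeq.1⟩ honeq.2.1
  obtain ⟨α, rfl⟩ := R.exists_ee hA0
  obtain ⟨β, hβ, rfl⟩ := R.exists_ee_Ico hB0 (α - 2 * Real.pi)
  have hsn0 := sn_eq hECT hCH hst hz hp0 hq0 hφ0 hφz hA0 hB0 hA0' hB0'
  rw [R.ee_sub_eq] at hsn0
  have hβ2 : β < α := by linarith [hβ.2]
  have hβ1 : α - 2 * Real.pi < β := by
    rcases hβ.1.eq_or_lt with h | h
    · exfalso
      have : (α - β) / 2 = Real.pi := by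
        rw [← h]
        ring
      rw [this, Real.sin_pi, abs_zero] at hsn0
      linarith
    · exact h
  set x0 : ℝ := (α - β) / 2 with hx0
  have hx0pos : 0 < x0 := by
    rw [hx0]
    linarith
  have hx0pi : x0 < Real.pi := by
    rw [hx0]
    linarith
  have hsx0 : 0 < Real.sin x0 := Real.sin_pos_of_pos_of_lt_pi hx0pos hx0pi
  have hsn0' : sn U0 col0 z = Real.sin x0 := by
    rw [hsn0, abs_of_pos hsx0]
    ring
  have hroot : Root U0 col0 z φ0 α p0 q0 := ⟨hst, hz, hφ0, hφz, hp0, hq0, hA0'⟩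
  have hte : (β - α) / 2 = -x0 := by
    rw [hx0]
    ring
  have hte1 : κ ≤ |Real.sin ((β - α) / 2)| := by
    rw [hte, Real.sin_neg, abs_neg, abs_of_pos hsx0, ← hsn0']
    linarith
  obtain ⟨g1, g2⟩ := hK2 U0 col0 z φ0 α (β - α) p0 q0 hroot hdst hte1
    (by rw [add_sub_cancel]; exact hB0')
  obtain ⟨m1, m2⟩ := hK1 U0 col0 z φ0 α p0 q0 (fun U col => r ≤ |dW φ0 α z U col| ∨ r ^ 2 ≤ lS U0 U z)
    (fun U col => dW φ0 α z U col) hroot (fun U col hi h => by
      obtain ⟨h1, h2, φ, h3⟩ := g2 U col hi h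
      exact ⟨h1, φ, h3.mono hκ1⟩)
  refine ⟨x0, fun U col => r ≤ |dW φ0 α z U col| ∨ r ^ 2 ≤ lS U0 U z, fun U col => dW φ0 α z U col,
    hx0pos, hx0pi, hsn0'.symm, g1, ?_, m1.trans ?_, m2.trans ?_⟩
  · intro U col hi h
    obtain ⟨h1, h2, φ, hD⟩ := g2 U col hi h
    obtain ⟨p, hp, hpz, hpp⟩ := hD.tip
    obtain ⟨q, hq, hqq⟩ := hD.exit
    have hcr : 0 < crad U z := by
      rw [hD.cr]
      have : 0 < crad U0 z := by linarith
      positivity
    refine ⟨hD.st, hD.mem, ⟨ph p, tipF_eq hECT hD.st hp, hpz⟩, hcr, hD.S0, hD.S2, hD.W2, h2, ?_⟩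
    obtain ⟨_, t', n1, n2⟩ := hD.mrk _ _ (β - α) honeq hte1 (by rw [add_sub_cancel]; exact hB0')
    have hsn1 := sn_eq hECT hCH hD.st hD.mem hp hq hD.chart hD.zero (R.ee_norm _) (R.ee_norm _) hpp
      (by rw [hqq]; exact n1)
    rw [R.ee_sub_eq] at hsn1
    set W := dW φ0 α z U col with hW
    set S := lS U0 U z with hS
    have hcot : Real.cot ((β - α) / 2) = -Real.cot x0 := by
      rw [hte, Real.cot_eq_cos_div_sin, Real.cot_eq_cos_div_sin, Real.cos_neg, Real.sin_neg, div_neg]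
    rw [hcot] at n2
    have e1 : (α + W - (α + t')) / 2 = (W - t') / 2 := by ring
    rw [e1] at hsn1
    set x := (W - t') / 2 with hx
    have hxd : |x - (x0 + W / 2 + S * Real.cot x0 / 2)| ≤ C * r ^ 3 / 2 := by
      have : x - (x0 + W / 2 + S * Real.cot x0 / 2) = -(t' - (β - α + S * -Real.cot x0)) / 2 := by
        rw [hx, hx0]
        ring
      rw [this, abs_div, abs_neg, abs_two]
      linarith
    have hr3' : C * r ^ 3 ≤ r ^ 2 := by
      calc C * r ^ 3 = (C * r) * r ^ 2 := by ring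
        _ ≤ 1 * r ^ 2 := by gcongr
        _ = r ^ 2 := by ring
    have hrκ : r ^ 2 ≤ κ / 4 * r := by nlinarith
    have hsinκ : κ ≤ Real.sin x0 := by rw [← hsn0']; linarith
    have hx0κ : κ ≤ x0 := hsinκ.trans (Real.sin_le hx0pos.le)
    have hx0κ' : κ ≤ Real.pi - x0 := by
      have := Real.sin_le (x := Real.pi - x0) (by linarith)
      rw [Real.sin_pi_sub] at this
      linarith
    have hcotb : |Real.cot x0| ≤ 1 / κ := by
      rw [Real.cot_eq_cos_div_sin, abs_div, abs_of_pos hsx0]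
      apply div_le_div₀ zero_le_one (Real.abs_cos_le_one _) hκ hsinκ
    have hScot : |S * Real.cot x0 / 2| ≤ r / 4 := by
      rw [abs_div, abs_mul, abs_two, abs_of_nonneg hD.S0]
      have h5 := hD.S2
      have h6 : S * |Real.cot x0| ≤ 2 * r ^ 2 * (1 / κ) := by
        have := hD.S0
        gcongr
      have h7 : 2 * r ^ 2 * (1 / κ) ≤ r / 2 := by
        rw [mul_one_div, div_le_iff₀ hκ]
        nlinarith
      linarith
    have hW2 : |W / 2| ≤ r := by
      rw [abs_div, abs_two]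
      linarith [hD.W2]
    have hκh : κ ≤ 1 / 2 := hκ1
    have hxb : |x - x0| < κ := by
      have e2 : x - x0 = (x - (x0 + W / 2 + S * Real.cot x0 / 2)) + (W / 2 + S * Real.cot x0 / 2) := by
        ring
      rw [e2]
      have h8 := abs_add_le (x - (x0 + W / 2 + S * Real.cot x0 / 2)) (W / 2 + S * Real.cot x0 / 2)
      have h9 := abs_add_le (W / 2) (S * Real.cot x0 / 2)
      nlinarith
    have hxx := abs_lt.1 hxb
    have hsx : 0 < Real.sin x := Real.sin_pos_of_pos_of_lt_pi (by linarith) (by linarith)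
    refine ⟨x, ?_, hxd.trans ?_⟩
    · rw [hsn1, abs_of_pos hsx]
      ring
    · have : C * r ^ 3 ≤ max C C' * r ^ 3 := by
        gcongr
        exact le_max_left _ _
      have h0 : 0 ≤ C * r ^ 3 := by positivity
      linarith
  · gcongr
    exact le_max_right _ _
  · gcongr
    exact le_max_right _ _

end Pool.Agent.H93.SM
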