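import Pool.Agent.H93.SM.Rad
import Pool.Agent.H93.SM.MS4
import Pool.Agent.H7.SM.MU3
import Pool.Agent.H7.UC.Final
import Pool.Agent.H10.SM.SL
import Pool.Agent.H10.SM.VC
import Pool.Agent.H84.SM.CH
import Pool.Agent.H21.SM.Cr
import Pool.Agent.H21.SM.Cyc
import Pool.Agent.H98.SM.Arc
import Pool.Agent.H44.SM.VX
import Pool.Agent.H66.SM.CE
import Pool.Agent.H50.SM.Ec
import Pool.Agent.H84.SM.TL
import Pool.Agent.H20.SM.Ps
import Pool.Agent.H21.SM.Os
import Pool.Agent.H21.SM.Os2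
import Pool.Agent.H21.SM.Cen
import Pool.Agent.H15.SM.BD

set_option autoImplicit false
open Pool.Agent.H7.UC

/-! MS, OS, OS', CEN without hypotheses. -/

namespace Pool.Agent.H93.SM

theorem ms_final : MS :=
  ms (Pool.Agent.H7.SM.mu uc Pool.Agent.H7.SM.step' Pool.Agent.H21.SM.cr ecs
      (Pool.Agent.H98.SM.arc Pool.Agent.H63.UC.d1b) Pool.Agent.H21.SM.cyc (vx Pool.Agent.H11.UC.a1)
      Pool.Agent.H66.SM.ce Pool.Agent.H84.SM.ch)
    rad (sl Pool.Agent.H84.SM.ch Pool.Agent.H84.SM.cu) Pool.Agent.H7.SM.step' ect ecs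
    Pool.Agent.H84.SM.ch Pool.Agent.H84.SM.cu vc

theorem ps_final : PS := ps ms_final

theorem os_final : OS :=
  Pool.Agent.H21.SM.os ps_final Pool.Agent.H15.SM.bd Pool.Agent.H84.SM.ch Pool.Agent.H84.SM.tl

theorem os'_final : OS' :=
  Pool.Agent.H21.SM.os' ps_final Pool.Agent.H15.SM.bd Pool.Agent.H84.SM.ch Pool.Agent.H84.SM.tl

theorem cen_final : CEN :=
  Pool.Agent.H21.SM.cen ps_final Pool.Agent.H84.SM.ch Pool.Agent.H84.SM.tl

end Pool.Agent.H93.SM
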