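import Pool.Agent.H93.SM.Rad1

set_option autoImplicit false
open Complex Metric Set Filter Topology Real InnerProductSpace

namespace Pool.Agent.H93.SM.R

/-- point of the circle -/
noncomputable def ee (t : ℝ) : ℂ := Complex.exp (t * Complex.I)

theorem ee_eq (t : ℝ) : ee t = circleMap 0 1 t := by simp [ee, circleMap]

theorem ee_cont : Continuous ee := by
  unfold ee
  fun_prop

theorem ee_norm (t : ℝ) : ‖ee t‖ = 1 := by
  unfold ee
  exact Complex.norm_exp_ofReal_mul_I t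

theorem ee_mem (t : ℝ) : ee t ∈ sphere (0 : ℂ) 1 := by simp [ee_norm]

theorem ee_mem' (t : ℝ) : ee t ∈ closedBall (0 : ℂ) 1 := by simp [ee_norm]

theorem ee_add (s t : ℝ) : ee (s + t) = ee s * ee t := by
  unfold ee
  rw [← Complex.exp_add]
  congr 1
  push_cast
  ring

theorem ee_period (t : ℝ) : ee (t + 2 * π) = ee t := by
  rw [ee_add]
  have : ee (2 * π) = 1 := by
    unfold ee
    push_cast
    exact Complex.exp_two_pi_mul_I
  rw [this, mul_one]

theorem ee_re (t : ℝ) : (ee t).re = Real.cos t := by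
  unfold ee
  exact Complex.exp_ofReal_mul_I_re t

theorem ee_im (t : ℝ) : (ee t).im = Real.sin t := by
  unfold ee
  exact Complex.exp_ofReal_mul_I_im t

theorem ee_zero : ee 0 = 1 := by simp [ee]

theorem ee_sub_norm (s t : ℝ) : ‖ee s - ee t‖ ≤ |s - t| := by
  have h : ee s - ee t = ee t * (ee (s - t) - 1) := by
    rw [mul_sub, ← ee_add]
    congr 2
    · ring_nf
    · ring
  rw [h, norm_mul, ee_norm, one_mul]
  have := Complex.norm_exp_I_mul_ofReal_sub_one (s - t)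
  unfold ee
  rw [mul_comm, this, Real.norm_eq_abs, abs_mul, abs_two]
  have h2 := Real.abs_sin_le_abs (x := (s - t) / 2)
  rw [abs_div, abs_two] at h2
  linarith

theorem exists_ee {w : ℂ} (hw : ‖w‖ = 1) : ∃ t : ℝ, ee t = w := by
  refine ⟨arg w, ?_⟩
  have := Complex.norm_mul_exp_arg_mul_I w
  rw [hw] at this
  simpa [ee] using this

theorem exists_ee_Ico {w : ℂ} (hw : ‖w‖ = 1) (a : ℝ) : ∃ t ∈ Ico a (a + 2 * π), ee t = w := by
  obtain ⟨t, ht⟩ := exists_ee hw
  have hp : Function.Periodic ee (2 * π) := ee_period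
  obtain ⟨y, hy, hy2⟩ := hp.exists_mem_Ico two_pi_pos t a
  exact ⟨y, hy, by rw [← hy2, ht]⟩

/-- arc of the circle away from `1` -/
def Gam (δ : ℝ) : Set ℂ := {w | ‖w‖ = 1 ∧ δ < ‖w - 1‖}

theorem Gam_conn (δ : ℝ) : IsPreconnected (Gam δ) := by
  have h1 : Convex ℝ {t ∈ Icc (0 : ℝ) π | δ / 2 < Real.sin t} :=
    strictConcaveOn_sin_Icc.concaveOn.convex_gt (δ / 2)
  have h2 : Gam δ = (fun t => ee (2 * t)) '' {t ∈ Icc (0 : ℝ) π | δ / 2 < Real.sin t} := by
    ext w
    constructor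
    · rintro ⟨h3, h4⟩
      obtain ⟨t, ht, rfl⟩ := exists_ee_Ico h3 0
      have e1 := Complex.norm_exp_I_mul_ofReal_sub_one t
      refine ⟨t / 2, ⟨⟨by linarith [ht.1], by linarith [ht.2]⟩, ?_⟩, by ring_nf⟩
      unfold ee at h4
      rw [mul_comm, e1, Real.norm_eq_abs, abs_mul, abs_two,
        abs_of_nonneg (Real.sin_nonneg_of_nonneg_of_le_pi (by linarith [ht.1])
          (by linarith [ht.2]))] at h4
      linarith
    · rintro ⟨t, ⟨ht, ht2⟩, rfl⟩
      refine ⟨ee_norm _, ?_⟩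
      have e1 := Complex.norm_exp_I_mul_ofReal_sub_one (2 * t)
      simp only [ee]
      rw [mul_comm, e1, Real.norm_eq_abs, abs_mul, abs_two]
      have : |Real.sin (2 * t / 2)| = Real.sin t := by
        rw [show 2 * t / 2 = t by ring]
        exact abs_of_nonneg (Real.sin_nonneg_of_nonneg_of_le_pi ht.1 ht.2)
      rw [this]
      linarith
  rw [h2]
  apply h1.isPreconnected.image
  apply Continuous.continuousOn
  exact ee_cont.comp (by fun_prop)

/-- hypotheses of RAD with `p = 1` -/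
structure Hy (T : ℂ → ℂ) (S δ : ℝ) : Prop where
  c : ContinuousOn T (closedBall 0 1)
  i : InjOn T (closedBall 0 1)
  d : DifferentiableOn ℂ T (ball 0 1)
  m : MapsTo T (ball 0 1) (ball 0 1)
  z : T 0 = 0
  D : deriv T 0 = (Real.exp (-S) : ℝ)
  h : ∀ w ∈ ball (0 : ℂ) 1, δ < ‖w - 1‖ → w ∈ T '' ball 0 1
  dp : 0 < δ
  dl : δ ≤ 1 / 300

variable {T : ℂ → ℂ} {S δ : ℝ}

theorem Hy.mem_ball_of (H : Hy T S δ) {ξ : ℂ} (hξ : ξ ∈ closedBall (0 : ℂ) 1) : ‖T ξ‖ ≤ 1 := by
  have h1 : closure (ball (0 : ℂ) 1) = closedBall 0 1 := closure_ball 0 one_ne_zero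
  have h2 : T ξ ∈ closure (T '' ball 0 1) := by
    have h3 := H.c
    rw [← h1] at h3 hξ
    exact h3.image_closure ⟨ξ, hξ, rfl⟩
  have h4 : closure (T '' ball 0 1) ⊆ closedBall 0 1 := by
    rw [← h1]
    exact closure_mono H.m.image_subset
  simpa using h4 h2

theorem Hy.norm_eq_one (H : Hy T S δ) {ξ : ℂ} (hξ : ‖ξ‖ = 1) (h : δ < ‖T ξ - 1‖) : ‖T ξ‖ = 1 := by
  have hξ' : ξ ∈ closedBall (0 : ℂ) 1 := by simp [hξ]
  rcases (H.mem_ball_of hξ').lt_or_eq with h1 | h1
  · exfalso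
    obtain ⟨w, hw, hw2⟩ := H.h (T ξ) (by simpa using h1) h
    have := H.i (ball_subset_closedBall hw) hξ' hw2
    subst this
    simp [hξ] at hw
  · exact h1

theorem Hy.image_closed (H : Hy T S δ) : IsClosed (T '' closedBall 0 1) :=
  ((isCompact_closedBall (0 : ℂ) 1).image_of_continuousOn H.c).isClosed

theorem Hy.gam_sub (H : Hy T S δ) : Gam δ ⊆ T '' closedBall 0 1 := by
  rintro η ⟨h1, h2⟩
  have h3 : ∀ᶠ r : ℝ in 𝓝[<] 1, (r : ℂ) * η ∈ T '' closedBall 0 1 := by
    have h4 : Tendsto (fun r : ℝ => ‖(r : ℂ) * η - 1‖) (𝓝[<] 1) (𝓝 ‖((1 : ℝ) : ℂ) * η - 1‖) := by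
      apply Tendsto.mono_left _ nhdsWithin_le_nhds
      apply Continuous.tendsto
      fun_prop
    have h5 : δ < ‖((1 : ℝ) : ℂ) * η - 1‖ := by simpa using h2
    have h6 := h4.eventually (lt_mem_nhds h5)
    have h7 : ∀ᶠ r : ℝ in 𝓝[<] 1, 0 < r := by
      apply Filter.Eventually.filter_mono nhdsWithin_le_nhds
      exact lt_mem_nhds one_pos
    filter_upwards [h6, h7, self_mem_nhdsWithin] with r hr hr0 hr1
    have hb : (r : ℂ) * η ∈ ball (0 : ℂ) 1 := by
      simp only [mem_ball, dist_zero_right, norm_mul, h1, mul_one, Complex.norm_real,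
        Real.norm_eq_abs, abs_of_pos hr0]
      exact hr1
    obtain ⟨w, hw, hw2⟩ := H.h _ hb hr
    exact ⟨w, ball_subset_closedBall hw, hw2⟩
  have h4 : Tendsto (fun r : ℝ => (r : ℂ) * η) (𝓝[<] 1) (𝓝 (((1 : ℝ) : ℂ) * η)) := by
    apply Tendsto.mono_left _ nhdsWithin_le_nhds
    apply Continuous.tendsto
    fun_prop
  have h5 := H.image_closed.mem_of_tendsto h4 h3
  simpa using h5

/-- the preimage of the arc `Gam δ` -/
theorem Hy.B_conn (H : Hy T S δ) : IsPreconnected {ξ : ℂ | ‖ξ‖ = 1 ∧ δ < ‖T ξ - 1‖} := by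
  let φ : closedBall (0 : ℂ) 1 → ℂ := fun x => T x
  have hφc : Continuous φ := continuousOn_iff_continuous_restrict.1 H.c
  have hφi : Function.Injective φ := fun x y hxy => Subtype.ext (H.i x.2 y.2 hxy)
  have : CompactSpace (closedBall (0 : ℂ) 1) :=
    isCompact_iff_compactSpace.1 (isCompact_closedBall (0 : ℂ) 1)
  have hφ := hφc.isClosedEmbedding hφi
  have h1 : IsPreconnected (φ '' (φ ⁻¹' Gam δ)) := by
    rw [image_preimage_eq_of_subset]
    · exact Gam_conn δ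
    · intro η hη
      obtain ⟨w, hw, hw2⟩ := H.gam_sub hη
      exact ⟨⟨w, hw⟩, hw2⟩
  rw [hφ.isInducing.isPreconnected_image] at h1
  have h2 := h1.image _ (continuous_subtype_val.continuousOn)
  have h3 : Subtype.val '' (φ ⁻¹' Gam δ) = {ξ : ℂ | ‖ξ‖ = 1 ∧ δ < ‖T ξ - 1‖} := by
    ext ξ
    constructor
    · rintro ⟨⟨w, hw⟩, hw2, rfl⟩
      obtain ⟨h4, h5⟩ := hw2
      refine ⟨?_, h5⟩
      rcases (show ‖w‖ ≤ 1 by simpa using hw).lt_or_eq with h6 | h6
      · exfalso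
        have h7 := H.m (show w ∈ ball (0 : ℂ) 1 by simpa using h6)
        have h8 : ‖T w‖ = 1 := h4
        simp [h8] at h7
      · exact h6
    · rintro ⟨h4, h5⟩
      exact ⟨⟨ξ, by simp [h4]⟩, ⟨H.norm_eq_one h4 h5, h5⟩, rfl⟩
  rwa [h3] at h2

/-- a connected subset of the circle avoiding two points misses one of the two arcs -/
theorem split {B : Set ℂ} (hB : IsPreconnected B) (hB1 : ∀ w ∈ B, ‖w‖ = 1) {a b : ℝ} (hab : a < b)
    (hba : b < a + 2 * π) (ha : ee a ∉ B) (hb : ee b ∉ B) :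
    (∀ t ∈ Ioo a b, ee t ∉ B) ∨ (∀ t ∈ Ioo b (a + 2 * π), ee t ∉ B) := by
  set F : ℂ → ℝ := fun w => ((w - ee a) * (starRingEnd ℂ) (ee b - ee a)).im with hF
  have hFc : Continuous F := by
    rw [hF]
    fun_prop
  have hFe : ∀ t, F (ee t) = 4 * Real.sin ((t - a) / 2) * Real.sin ((b - a) / 2) *
      Real.sin ((t - b) / 2) := by
    intro t
    rw [hF]
    simp only [mul_im, sub_re, sub_im, map_sub, ee_re, ee_im, conj_re, conj_im]
    have e1 : t = 2 * ((t - a) / 2) + a := by ring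
    have e2 : b = 2 * ((b - a) / 2) + a := by ring
    have e3 : (t - b) / 2 = (t - a) / 2 - (b - a) / 2 := by ring
    rw [e3]
    set x := (t - a) / 2
    set y := (b - a) / 2
    rw [e1, e2]
    simp only [Real.sin_add, Real.cos_add, Real.sin_two_mul, Real.cos_two_mul, Real.sin_sub]
    have h1 := Real.sin_sq_add_cos_sq a
    have h2 := Real.sin_sq_add_cos_sq x
    have h3 := Real.sin_sq_add_cos_sq y
    have h4 : Real.sin a ^ 2 = 1 - Real.cos a ^ 2 := by linarith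
    have h5 : Real.cos x ^ 2 = 1 - Real.sin x ^ 2 := by linarith
    have h6 : Real.cos y ^ 2 = 1 - Real.sin y ^ 2 := by linarith
    ring_nf
    simp only [h4, h5, h6]
    ring_nf
  by_contra hcon
  push Not at hcon
  obtain ⟨⟨t1, ht1, hB1'⟩, ⟨t2, ht2, hB2'⟩⟩ := hcon
  have hy : 0 < Real.sin ((b - a) / 2) :=
    Real.sin_pos_of_pos_of_lt_pi (by linarith) (by linarith)
  have hF1 : F (ee t1) < 0 := by
    rw [hFe]
    have h1 : 0 < Real.sin ((t1 - a) / 2) :=
      Real.sin_pos_of_pos_of_lt_pi (by linarith [ht1.1]) (by linarith [ht1.2])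
    have h2 : Real.sin ((t1 - b) / 2) < 0 :=
      Real.sin_neg_of_neg_of_neg_pi_lt (by linarith [ht1.2]) (by linarith [ht1.1])
    have := mul_pos h1 hy
    nlinarith
  have hF2 : 0 < F (ee t2) := by
    rw [hFe]
    have h1 : 0 < Real.sin ((t2 - a) / 2) :=
      Real.sin_pos_of_pos_of_lt_pi (by linarith [ht2.1]) (by linarith [ht2.2])
    have h2 : 0 < Real.sin ((t2 - b) / 2) :=
      Real.sin_pos_of_pos_of_lt_pi (by linarith [ht2.1]) (by linarith [ht2.2])
    have := mul_pos h1 hy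
    nlinarith [mul_pos this h2]
  have h0 : (0 : ℝ) ∈ F '' B :=
    hB.intermediate_value hB1' hB2' hFc.continuousOn ⟨hF1.le, hF2.le⟩
  obtain ⟨w, hw, hw0⟩ := h0
  obtain ⟨t, ht, rfl⟩ := exists_ee_Ico (hB1 w hw) a
  rw [hFe] at hw0
  have h7 : Real.sin ((t - a) / 2) = 0 ∨ Real.sin ((t - b) / 2) = 0 := by
    rcases mul_eq_zero.1 hw0 with h | h
    · rcases mul_eq_zero.1 h with h | h
      · left
        linarith
      · exact absurd h hy.ne'
    · right
      exact h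
  rcases h7 with h | h
  · rcases ht.1.eq_or_lt with h8 | h8
    · rw [← h8] at hw
      exact ha hw
    · exact absurd h (Real.sin_pos_of_pos_of_lt_pi (by linarith) (by linarith [ht.2])).ne'
  · rcases lt_trichotomy t b with h8 | h8 | h8
    · exact absurd h (Real.sin_neg_of_neg_of_neg_pi_lt (by linarith) (by linarith [ht.1])).ne
    · rw [h8] at hw
      exact hb hw
    · exact absurd h (Real.sin_pos_of_pos_of_lt_pi (by linarith) (by linarith [ht.2])).ne'

end Pool.Agent.H93.SM.R
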