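import Pool.Agent.H93.SM.MS1

set_option autoImplicit false
open Pool.Agent.H75.Perc Metric Set Filter Topology Pool.Agent.H7.UC Pool.Agent.H74.Tri
open Pool.Agent.H93.SM.R (ee)

/-! Interface between the geometric part (positions of tip, exit and marks along a micro-step, from
SL and RAD) and the probabilistic part (UC + CR + CE) of MS.  `ee t = exp (i t)`. -/

namespace Pool.Agent.H93.SM

/-- root of a micro-step: chart `φ0`, the tip `p0` is at the angle `α` -/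
structure Root (U0 : Finset Fc) (col0 : Fc → Bool) (z : Fc) (φ0 : ℂ → ℂ) (α : ℝ) (p0 q0 : Pos) :
    Prop where
  st : St U0 col0
  mem : z ∈ U0
  chart : DiscChart (reg U0) φ0
  zero : φ0 0 = ctr z
  tip : IsTip U0 col0 p0
  exit : IsExit U0 col0 q0
  pos : φ0 (ee α) = pv p0.1

/-- a state of the micro-step: chart `φ` (normalised by the chart of the root), the tip is at the angle
`α + W`, a vertex which was at the angle `α + t` (not too close to the tip) is still a boundary vertex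
and is at the angle `α + t + S cot (t/2) + O(r^3)`. -/
structure Data (U0 : Finset Fc) (z : Fc) (φ0 : ℂ → ℂ) (α : ℝ) (q0 : Pos) (κ C r : ℝ)
    (U : Finset Fc) (col : Fc → Bool) (φ : ℂ → ℂ) (W S : ℝ) : Prop where
  st : St U col
  mem : z ∈ U
  chart : DiscChart (reg U) φ
  zero : φ 0 = ctr z
  der : deriv φ 0 = (Real.exp (-S) : ℝ) * deriv φ0 0
  cr : crad U z = Real.exp (-S) * crad U0 z
  S0 : 0 ≤ S
  S2 : S ≤ 2 * r ^ 2
  W2 : |W| ≤ 2 * r
  tip : ∃ p, IsTip U col p ∧ ph p ≠ z ∧ φ (ee (α + W)) = pv p.1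
  exit : ∃ q, IsExit U col q ∧ nb q.1 q.2 = nb q0.1 q0.2
  mrk : ∀ (v : Vx) (k : Fin 3) (t : ℝ), One U0 v k → κ ≤ |Real.sin (t / 2)| →
    φ0 (ee (α + t)) = pv v → fc v k ∈ U ∧
      ∃ t', φ (ee (α + t')) = pv v ∧ |t' - (t + S * Real.cot (t / 2))| ≤ C * r ^ 3

/-- MU (probabilistic part of MS), from UC, STEP', CR, ECT, ECS, ARC, CYC, VX, CE, CH: the linear
relations for the displacement `W` of the tip and the decrease `lS`. -/
def MU : Prop := ∀ C : ℝ, 0 < C → ∃ C' r0 : ℝ, 0 < C' ∧ 0 < r0 ∧ ∀ r : ℝ, 0 < r → r ≤ r0 → ∃ K : ℝ,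
  ∀ (U0 : Finset Fc) (col0 : Fc → Bool) (z : Fc) (φ0 : ℂ → ℂ) (α : ℝ) (p0 q0 : Pos)
    (Lf : Finset Fc → (Fc → Bool) → Prop) (W : Finset Fc → (Fc → Bool) → ℝ),
  Root U0 col0 z φ0 α p0 q0 →
  (∀ U col hi, Rh z (fun U col _ => Lf U col) U0 col0 [] U col hi →
    K ≤ dst U z ∧ ∃ φ, Data U0 z φ0 α q0 (1 / 2) C r U col φ (W U col) (lS U0 U z)) →
  |Ev z (fun U col _ => Lf U col) (fun U col _ => W U col) U0 col0 []| ≤ C' * r ^ 3 ∧
  |Ev z (fun U col _ => Lf U col) (fun U col _ => W U col ^ 2 - 6 * lS U0 U z) U0 col0 []| ≤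
    C' * r ^ 3

end Pool.Agent.H93.SM
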