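import Pool.Agent.H93.SM.Rad2
import Pool.Agent.H93.SM.Iface2

set_option autoImplicit false
open Complex Metric Set Filter Topology Real

/-! Plane geometry of the micro-step. -/

namespace Pool.Agent.H93.SM.R

/-- the kernel `(a + b) / (a - b)` -/
noncomputable def kk (a b : ℂ) : ℂ := (a + b) / (a - b)

theorem kk_re {a b : ℂ} (ha : ‖a‖ = 1) (hb : ‖b‖ = 1) : (kk a b).re = 0 := by
  unfold kk
  rw [div_re, ← add_div]
  have h1 : (a + b).re * (a - b).re + (a + b).im * (a - b).im = ‖a‖ ^ 2 - ‖b‖ ^ 2 := by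
    rw [← normSq_eq_norm_sq, ← normSq_eq_norm_sq, normSq_apply, normSq_apply]
    simp only [add_re, sub_re, add_im, sub_im]
    ring
  rw [h1, ha, hb]
  simp

theorem kk_exp_norm {a b : ℂ} (ha : ‖a‖ = 1) (hb : ‖b‖ = 1) (S : ℝ) :
    ‖Complex.exp (S * kk a b)‖ = 1 := by
  rw [Complex.norm_exp]
  simp [kk_re ha hb]

theorem exp_diff {x y : ℂ} (hx : x.re = 0) (hy : y.re = 0) :
    ‖Complex.exp x - Complex.exp y‖ ≤ ‖x - y‖ := by
  have e1 : x = (x.im : ℂ) * Complex.I := by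
    apply Complex.ext <;> simp [hx]
  have e2 : y = (y.im : ℂ) * Complex.I := by
    apply Complex.ext <;> simp [hy]
  have h1 := ee_sub_norm x.im y.im
  unfold ee at h1
  rw [← e1, ← e2] at h1
  have h2 : ‖x - y‖ = |x.im - y.im| := by
    rw [e1, e2, ← sub_mul, norm_mul, Complex.norm_I, mul_one, ← ofReal_sub, Complex.norm_real,
      Real.norm_eq_abs]
    simp
  rw [h2]
  exact h1

theorem kk_norm_le {a b : ℂ} (ha : ‖a‖ = 1) (hb : ‖b‖ = 1) {κ : ℝ} (hκ : 0 < κ)
    (h : κ ≤ ‖a - b‖) : ‖kk a b‖ ≤ 2 / κ := by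
  unfold kk
  rw [norm_div]
  apply div_le_div₀ (by norm_num) _ hκ h
  have := norm_add_le a b
  linarith

theorem kk_sub {a b a0 b0 : ℂ} (ha0 : ‖a0‖ = 1) (hb0 : ‖b0‖ = 1) {κ κ' : ℝ} (hκ : 0 < κ)
    (hκ' : 0 < κ') (h : κ ≤ ‖a - b‖) (h' : κ' ≤ ‖a0 - b0‖) :
    ‖kk a b - kk a0 b0‖ ≤ 2 * (‖a - a0‖ + ‖b - b0‖) / (κ * κ') := by
  unfold kk
  have h1 : a - b ≠ 0 := by
    intro h2
    rw [h2, norm_zero] at h
    linarith
  have h2 : a0 - b0 ≠ 0 := by
    intro h2
    rw [h2, norm_zero] at h'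
    linarith
  rw [div_sub_div _ _ h1 h2, norm_div, norm_mul]
  apply div_le_div₀ (by positivity) _ (by positivity) (by gcongr)
  have h3 : (a + b) * (a0 - b0) - (a - b) * (a0 + b0) = 2 * (a0 * (b - b0) + b0 * (a0 - a)) := by
    ring
  rw [h3, norm_mul, Complex.norm_ofNat]
  have h4 := norm_add_le (a0 * (b - b0)) (b0 * (a0 - a))
  rw [norm_mul, norm_mul, ha0, hb0, one_mul, one_mul, norm_sub_rev a0 a] at h4
  linarith

theorem ee_sub_eq (s t : ℝ) : ‖ee s - ee t‖ = 2 * |Real.sin ((s - t) / 2)| := by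
  have h : ee s - ee t = ee t * (ee (s - t) - 1) := by
    rw [mul_sub, ← ee_add]
    congr 2
    · ring_nf
    · ring
  rw [h, norm_mul, ee_norm, one_mul]
  have := Complex.norm_exp_I_mul_ofReal_sub_one (s - t)
  unfold ee
  rw [mul_comm, this, Real.norm_eq_abs, abs_mul, abs_two]

theorem ee_neg (t : ℝ) : ee (-t) * ee t = 1 := by
  rw [← ee_add]
  simp [ee_zero]

theorem ee_ne (t : ℝ) : ee t ≠ 0 := by
  intro h
  have := ee_norm t
  rw [h, norm_zero] at this
  exact zero_ne_one this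

/-- a unit vector close to `ee α` has an angle close to `α` -/
theorem angle {q : ℂ} (hq : ‖q‖ = 1) {α ε : ℝ} (h : ‖q - ee α‖ ≤ ε) :
    ∃ θ, q = ee θ ∧ |θ - α| ≤ 2 * ε := by
  have h0 : 0 ≤ ε := (norm_nonneg _).trans h
  have h1 : ‖q * ee (-α)‖ = 1 := by rw [norm_mul, hq, ee_norm, one_mul]
  have h2 := Complex.norm_mul_exp_arg_mul_I (q * ee (-α))
  rw [h1] at h2
  simp only [ofReal_one, one_mul] at h2
  set β := arg (q * ee (-α)) with hβ
  have h3 : ee β = q * ee (-α) := h2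
  refine ⟨α + β, ?_, ?_⟩
  · rw [ee_add, h3, mul_comm (ee α), mul_assoc, ee_neg, mul_one]
  · rw [add_sub_cancel_left]
    have h4 : ‖q - ee α‖ = ‖ee β - ee 0‖ := by
      rw [h3, ee_zero]
      have : q * ee (-α) - 1 = (q - ee α) * ee (-α) := by
        rw [sub_mul, mul_comm (ee α), ee_neg]
      rw [this, norm_mul, ee_norm, mul_one]
    rw [ee_sub_eq, sub_zero] at h4
    have h5 : |β| ≤ π := Complex.abs_arg_le_pi _
    have h6 : 2 / π * (|β| / 2) ≤ Real.sin (|β| / 2) :=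
      Real.mul_le_sin (by positivity) (by linarith)
    have h7 : Real.sin (|β| / 2) ≤ |Real.sin (β / 2)| := by
      rcases abs_cases β with ⟨h8, _⟩ | ⟨h8, _⟩
      · rw [h8]
        exact le_abs_self _
      · rw [h8, neg_div, Real.sin_neg]
        exact neg_le_abs _
    have hpi := Real.pi_pos
    have h8 : |β| / π ≤ ε / 2 := by
      have : 2 / π * (|β| / 2) = |β| / π := by
        field_simp
      linarith
    rw [div_le_iff₀ hpi] at h8
    have h9 : π ≤ 4 := Real.pi_le_four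
    nlinarith

theorem kk_angle (α t : ℝ) (ht : Real.sin (t / 2) ≠ 0) :
    kk (ee α) (ee (α + t)) = (Real.cot (t / 2) : ℝ) * Complex.I := by
  unfold kk
  have e1 : ee α = ee (α + t / 2) * ee (-(t / 2)) := by
    rw [← ee_add]
    congr 1
    ring
  have e2 : ee (α + t) = ee (α + t / 2) * ee (t / 2) := by
    rw [← ee_add]
    congr 1
    ring
  rw [e1, e2, ← mul_add, ← mul_sub, mul_div_mul_left _ _ (ee_ne _)]
  have h1 : ee (-(t / 2)) + ee (t / 2) = 2 * (Real.cos (t / 2) : ℝ) := by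
    apply Complex.ext
    · simp only [add_re, ee_re, Real.cos_neg, mul_re, re_ofNat, ofReal_re, im_ofNat, ofReal_im]
      ring
    · simp only [add_im, ee_im, Real.sin_neg, mul_im, re_ofNat, ofReal_im, im_ofNat, ofReal_re]
      ring
  have h2 : ee (-(t / 2)) - ee (t / 2) = -(2 * (Real.sin (t / 2) : ℝ) * Complex.I) := by
    apply Complex.ext
    · simp only [sub_re, ee_re, Real.cos_neg, neg_re, mul_re, mul_im, re_ofNat, im_ofNat, ofReal_re,
        ofReal_im, I_re, I_im]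
      ring
    · simp only [sub_im, ee_im, Real.sin_neg, neg_im, mul_im, mul_re, re_ofNat, ofReal_im, im_ofNat,
        ofReal_re, I_re, I_im]
      ring
  rw [h1, h2, Real.cot_eq_cos_div_sin]
  have h3 : ((Real.sin (t / 2) : ℝ) : ℂ) ≠ 0 := by exact_mod_cast ht
  push_cast at h3 ⊢
  field_simp
  rw [Complex.I_sq]
  ring

theorem ee_exp_kk (α t S : ℝ) (ht : Real.sin (t / 2) ≠ 0) :
    ee (α + t) * Complex.exp (S * kk (ee α) (ee (α + t))) = ee (α + (t + S * Real.cot (t / 2))) := by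
  rw [kk_angle α t ht]
  unfold ee
  rw [← Complex.exp_add]
  congr 1
  push_cast
  ring

theorem ee_sub_ee (α β : ℝ) : ee β - ee α = 2 * Complex.I * (Real.sin ((β - α) / 2) : ℝ) *
    ee ((α + β) / 2) := by
  have e1 : ee β = ee ((α + β) / 2) * ee ((β - α) / 2) := by
    rw [← ee_add]
    congr 1
    ring
  have e2 : ee α = ee ((α + β) / 2) * ee (-((β - α) / 2)) := by
    rw [← ee_add]
    congr 1
    ring
  rw [e1, e2, ← mul_sub]
  have h2 : ee ((β - α) / 2) - ee (-((β - α) / 2)) =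
      2 * Complex.I * (Real.sin ((β - α) / 2) : ℝ) := by
    apply Complex.ext
    · simp only [sub_re, ee_re, Real.cos_neg, neg_re, mul_re, mul_im, re_ofNat, im_ofNat, ofReal_re,
        ofReal_im, I_re, I_im]
      ring
    · simp only [sub_im, ee_im, Real.sin_neg, mul_im, mul_re, re_ofNat, ofReal_im, im_ofNat,
        ofReal_re, I_re, I_im]
      ring
  rw [h2]
  ring

theorem crossR_ee (α w t1 t2 t3 : ℝ) :
    Pool.Agent.H7.UC.crossR (ee (α + t1)) (ee (α + w)) (ee (α + t2)) (ee (α + t3)) =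
      (lam w t1 t2 t3 : ℝ) := by
  unfold Pool.Agent.H7.UC.crossR lam
  rw [ee_sub_ee (α + t1) (α + w), ee_sub_ee (α + t2) (α + t3), ee_sub_ee (α + t1) (α + t2),
    ee_sub_ee (α + w) (α + t3)]
  have e1 : 2 * Complex.I * (Real.sin ((α + w - (α + t1)) / 2) : ℝ) * ee ((α + t1 + (α + w)) / 2) *
      (2 * Complex.I * (Real.sin ((α + t3 - (α + t2)) / 2) : ℝ) * ee ((α + t2 + (α + t3)) / 2)) =
      (2 * Complex.I * (2 * Complex.I) * ee ((α + t1 + (α + w)) / 2 + (α + t2 + (α + t3)) / 2)) *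
      ((Real.sin ((α + w - (α + t1)) / 2) : ℝ) * (Real.sin ((α + t3 - (α + t2)) / 2) : ℝ)) := by
    rw [ee_add]
    ring
  have e2 : 2 * Complex.I * (Real.sin ((α + t2 - (α + t1)) / 2) : ℝ) * ee ((α + t1 + (α + t2)) / 2) *
      (2 * Complex.I * (Real.sin ((α + t3 - (α + w)) / 2) : ℝ) * ee ((α + w + (α + t3)) / 2)) =
      (2 * Complex.I * (2 * Complex.I) * ee ((α + t1 + (α + w)) / 2 + (α + t2 + (α + t3)) / 2)) *
      ((Real.sin ((α + t2 - (α + t1)) / 2) : ℝ) * (Real.sin ((α + t3 - (α + w)) / 2) : ℝ)) := by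
    have : (α + t1 + (α + w)) / 2 + (α + t2 + (α + t3)) / 2 =
      (α + t1 + (α + t2)) / 2 + (α + w + (α + t3)) / 2 := by ring
    rw [this, ee_add]
    ring
  rw [e1, e2, mul_div_mul_left _ _ (by
    have h1 := ee_ne ((α + t1 + (α + w)) / 2 + (α + t2 + (α + t3)) / 2)
    simp [h1])]
  simp only [add_sub_add_left_eq_sub]
  push_cast
  ring

end Pool.Agent.H93.SM.R
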