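import Pool.Agent.H93.SM.Iface3
import Pool.Agent.H21.UC.Cell
import Pool.Agent.H7.SM.Step4

set_option autoImplicit false
open Pool.Agent.H75.Perc Metric Set Filter Topology Pool.Agent.H7.UC Pool.Agent.H74.Tri
open Pool.Agent.H93.SM.R (ee kk)

/-! Geometric half of MS: positions along a micro-step. -/

namespace Pool.Agent.H93.SM

theorem exit_one {U : Finset Fc} {col : Fc → Bool} {q : Pos} (h : IsExit U col q) :
    One U (nb q.1 q.2) q.2 := by
  obtain ⟨h1, h2, h3, _⟩ := h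
  refine ⟨h1, ?_, ?_⟩
  · rw [fc_nb1]
    exact h3
  · rw [fc_nb2]
    exact h2

theorem tip_one {U : Finset Fc} {col : Fc → Bool} {p : Pos} (h : IsTip U col p) :
    One U p.1 p.2 := ⟨h.1, h.2.1, h.2.2.1⟩

theorem One.uniq {U : Finset Fc} {v : Vx} {k k' : Fin 3} (h : One U v k) (h' : fc v k' ∈ U) :
    k' = k := by
  obtain ⟨h1, h2, h3⟩ := h
  have : ∀ k k' : Fin 3, k' = k ∨ k' = k + 1 ∨ k' = k + 2 := by decide
  rcases this k k' with e | e | e
  · exact e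
  · subst e
    exact absurd h' h2
  · subst e
    exact absurd h' h3

/-- a vertex of the face `z` outside the domain is at distance at most `1` -/
theorem dst_le {U : Finset Fc} (hVC : VC) {v : Vx} {k k' : Fin 3} (h : fc v k ∉ U) :
    dst U (fc v k') ≤ 1 := by
  unfold dst
  have h1 := (hVC U v).2 k h
  have h2 : infDist (ctr (fc v k')) (reg U)ᶜ ≤ dist (ctr (fc v k')) (pv v) := infDist_le_dist_of_mem h1
  have h3 := Pool.Agent.H21.UC.cell_norm (Pool.Agent.H21.UC.pv_mem v k')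
  rw [dist_comm, dist_eq_norm] at h2
  linarith

/-- possible positions of the vertex `v` in the chart of `U` normalised by `φ0` -/
def Po (φ0 : ℂ → ℂ) (z : Fc) (U : Finset Fc) (v : Vx) (A : ℂ) : Prop :=
  ‖A‖ = 1 ∧ ∃ (φ : ℂ → ℂ) (S : ℝ), DiscChart (reg U) φ ∧ φ 0 = ctr z ∧
    deriv φ 0 = (Real.exp (-S) : ℝ) * deriv φ0 0 ∧ φ A = pv v

theorem Po_unique (hCU : CU) {φ0 : ℂ → ℂ} {z : Fc} {U0 U : Finset Fc} (h0 : DiscChart (reg U0) φ0)
    {v : Vx} {A B : ℂ} (hA : Po φ0 z U v A) (hB : Po φ0 z U v B) : A = B := by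
  obtain ⟨hA1, φ, S, h1, h2, h3, h4⟩ := hA
  obtain ⟨hB1, ψ, S', h1', h2', h3', h4'⟩ := hB
  obtain ⟨hne, c, hc, hc2, hc3⟩ := hCU _ φ ψ h1 h1' (by rw [h2, h2'])
  have hne0 : deriv φ0 0 ≠ 0 := (hCU _ φ0 φ0 h0 h0 rfl).1
  rw [h3, h3'] at hc3
  have h5 : ((Real.exp (-S') : ℝ) : ℂ) = c * (Real.exp (-S) : ℝ) := by
    apply mul_right_cancel₀ hne0
    rw [hc3]
    ring
  have h6 : Real.exp (-S') = Real.exp (-S) := by
    have := congrArg norm h5
    rw [norm_mul, hc, one_mul, Complex.norm_real, Complex.norm_real, Real.norm_eq_abs,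
      Real.norm_eq_abs, abs_of_pos (Real.exp_pos _), abs_of_pos (Real.exp_pos _)] at this
    exact this
  have h7 : c = 1 := by
    rw [h6] at h5
    have h8 : ((Real.exp (-S) : ℝ) : ℂ) ≠ 0 := by exact_mod_cast (Real.exp_pos _).ne'
    have h9 : (1 : ℂ) * ((Real.exp (-S) : ℝ) : ℂ) = c * ((Real.exp (-S) : ℝ) : ℂ) := by
      rw [one_mul]
      exact h5
    exact (mul_right_cancel₀ h8 h9).symm
  have hBm : B ∈ closedBall (0 : ℂ) 1 := by simp [hB1]
  have h8 := hc2 B hBm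
  rw [h7, one_mul, h4'] at h8
  exact h1.inj (by simp [hA1]) hBm (by rw [h4, h8])

/-- position -/
noncomputable def posn (φ0 : ℂ → ℂ) (z : Fc) (U : Finset Fc) (v : Vx) : ℂ := by
  classical exact if h : ∃ A, Po φ0 z U v A then h.choose else 1

theorem posn_eq (hCU : CU) {φ0 : ℂ → ℂ} {z : Fc} {U0 U : Finset Fc} (h0 : DiscChart (reg U0) φ0)
    {v : Vx} {A : ℂ} (hA : Po φ0 z U v A) : posn φ0 z U v = A := by
  unfold posn
  rw [dif_pos ⟨A, hA⟩]
  exact Po_unique hCU h0 (Exists.choose_spec (⟨A, hA⟩ : ∃ A, Po φ0 z U v A)) hA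

/-- displacement of the tip -/
noncomputable def dW (φ0 : ℂ → ℂ) (α : ℝ) (z : Fc) (U : Finset Fc) (col : Fc → Bool) : ℝ := by
  classical exact if h : ∃ p, IsTip U col p then
    Complex.arg (posn φ0 z U h.choose.1 * ee (-α)) else 0

theorem tip_unique (hE : ECT) {U : Finset Fc} {col : Fc → Bool} (h : St U col) {p p' : Pos}
    (hp : IsTip U col p) (hp' : IsTip U col p') : p' = p := by
  rcases hE U col h with ⟨M, p1, q1, h1, h2, h3, h4, h5, h6, h7⟩ | ⟨h1, h2⟩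
  · rw [h5 p' hp', h5 p hp]
  · exact absurd hp (h1 p)

theorem exit_unique (hE : ECT) {U : Finset Fc} {col : Fc → Bool} (h : St U col) {p p' : Pos}
    (hp : IsExit U col p) (hp' : IsExit U col p') : p' = p := by
  rcases hE U col h with ⟨M, p1, q1, h1, h2, h3, h4, h5, h6, h7⟩ | ⟨h1, h2⟩
  · rw [h6 p' hp', h6 p hp]
  · exact absurd hp (h2 p)

theorem tipF_eq (hE : ECT) {U : Finset Fc} {col : Fc → Bool} (h : St U col) {p : Pos}
    (hp : IsTip U col p) : tipF U col = some (ph p) := by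
  unfold tipF
  have h1 : ∃ p, IsTip U col p := ⟨p, hp⟩
  rw [dif_pos h1, tip_unique hE h hp h1.choose_spec]

theorem dW_spec (hE : ECT) (hCU : CU) {φ0 : ℂ → ℂ} {z : Fc} {U0 U : Finset Fc} {α : ℝ}
    {col : Fc → Bool} (h0 : DiscChart (reg U0) φ0) (hst : St U col) {p : Pos} (hp : IsTip U col p)
    {A : ℂ} (hA : Po φ0 z U p.1 A) : ee (α + dW φ0 α z U col) = A ∧ |dW φ0 α z U col| ≤ Real.pi ∧
      |dW φ0 α z U col| ≤ 8 / 5 * ‖A - ee α‖ ∧ ‖A - ee α‖ ≤ |dW φ0 α z U col| := by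
  have h1 : ∃ p, IsTip U col p := ⟨p, hp⟩
  have h2 : dW φ0 α z U col = Complex.arg (A * ee (-α)) := by
    unfold dW
    rw [dif_pos h1, tip_unique hE hst hp h1.choose_spec, posn_eq hCU h0 hA]
  have hn : ‖A * ee (-α)‖ = 1 := by rw [norm_mul, hA.1, R.ee_norm, one_mul]
  have h3 := Complex.norm_mul_exp_arg_mul_I (A * ee (-α))
  rw [hn, ← h2] at h3
  simp only [Complex.ofReal_one, one_mul] at h3
  set W := dW φ0 α z U col with hW
  have h4 : ee W = A * ee (-α) := h3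
  have h5 : ee (α + W) = A := by
    rw [R.ee_add, h4, mul_comm (ee α), mul_assoc, R.ee_neg, mul_one]
  have h6 : |W| ≤ Real.pi := by
    rw [h2]
    exact Complex.abs_arg_le_pi _
  have h7 : ‖A - ee α‖ = 2 * |Real.sin (W / 2)| := by
    rw [← h5, R.ee_sub_eq]
    congr 3
    ring
  refine ⟨h5, h6, ?_, ?_⟩
  · rw [h7]
    have h8 : 2 / Real.pi * (|W| / 2) ≤ Real.sin (|W| / 2) :=
      Real.mul_le_sin (by positivity) (by linarith)
    have h9 : Real.sin (|W| / 2) ≤ |Real.sin (W / 2)| := by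
      rcases abs_cases W with ⟨h8, _⟩ | ⟨h8, _⟩
      · rw [h8]
        exact le_abs_self _
      · rw [h8, neg_div, Real.sin_neg]
        exact neg_le_abs _
    have hpi := Real.pi_pos
    have h10 : |W| / Real.pi ≤ |Real.sin (W / 2)| := by
      have : 2 / Real.pi * (|W| / 2) = |W| / Real.pi := by
        field_simp
      linarith
    rw [div_le_iff₀ hpi] at h10
    have h11 : Real.pi < 3.15 := Real.pi_lt_d2
    nlinarith [abs_nonneg (Real.sin (W / 2))]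
  · rw [h7]
    have := Real.abs_sin_le_abs (x := W / 2)
    rw [abs_div, abs_two] at this
    linarith

/-- the invariant of the micro-step -/
structure Inv (U0 : Finset Fc) (z : Fc) (φ0 : ℂ → ℂ) (α : ℝ) (q0 : Pos) (κ C1 δ r : ℝ)
    (U : Finset Fc) (col : Fc → Bool) (φ : ℂ → ℂ) (p : Pos) (A : ℂ) (S : ℝ) : Prop where
  st : St U col
  mem : z ∈ U
  chart : DiscChart (reg U) φ
  zero : φ 0 = ctr z
  der : deriv φ 0 = (Real.exp (-S) : ℝ) * deriv φ0 0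
  cr : crad U z = Real.exp (-S) * crad U0 z
  S0 : 0 ≤ S
  tip : IsTip U col p
  An : ‖A‖ = 1
  Ap : φ A = pv p.1
  exit : ∃ q, IsExit U col q ∧ nb q.1 q.2 = nb q0.1 q0.2
  mrk : ∀ (v : Vx) (k : Fin 3) (t : ℝ), One U0 v k → κ ≤ |Real.sin (t / 2)| →
    φ0 (ee (α + t)) = pv v → fc v k ∈ U ∧
      ∃ q, ‖q‖ = 1 ∧ φ q = pv v ∧ (∀ k', fc v k' ∈ U → k' = k) ∧
        ‖q - ee (α + t) * Complex.exp (S * kk (ee α) (ee (α + t)))‖ ≤ C1 * (δ + r) * S

theorem Inv.po {U0 : Finset Fc} {z : Fc} {φ0 : ℂ → ℂ} {α : ℝ} {q0 : Pos} {κ C1 δ r : ℝ}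
    {U : Finset Fc} {col : Fc → Bool} {φ : ℂ → ℂ} {p : Pos} {A : ℂ} {S : ℝ}
    (h : Inv U0 z φ0 α q0 κ C1 δ r U col φ p A S) : Po φ0 z U p.1 A :=
  ⟨h.An, φ, S, h.chart, h.zero, h.der, h.Ap⟩

/-- one step -/
theorem Inv.step (hSL : SL) (hSt : Pool.Agent.H7.SM.STEP') (hECS : ECS) (hCH : CH) (hVC : VC)
    {κ C1 Cr Cκ δ r : ℝ} (hκ : 0 < κ) (hκ1 : κ ≤ 1) (hr : 0 < r) (hr1 : r ≤ 1 / 4) (hCr : 0 < Cr)
    (hδ : 0 < δ) (hδ1 : δ ≤ 1 / 10) (hδr : Cr * δ ≤ r / 10) (hδr' : δ ≤ r) (hCκ : 0 ≤ Cκ)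
    (hC1 : C1 = Cκ + 5 / κ ^ 2) (hrs : 2 * r * (2 * C1 + Cκ + 5 / κ) ≤ 1) (hr4 : 4 * r ≤ κ)
    (hRAD : ∀ (T : ℂ → ℂ) (p : ℂ) (S : ℝ), ContinuousOn T (closedBall 0 1) →
      InjOn T (closedBall 0 1) →
      DifferentiableOn ℂ T (ball 0 1) → MapsTo T (ball 0 1) (ball 0 1) → T 0 = 0 →
      deriv T 0 = (Real.exp (-S) : ℝ) → ‖p‖ = 1 →
      (∀ w ∈ ball (0 : ℂ) 1, δ < ‖w - p‖ → w ∈ T '' ball 0 1) →
      0 ≤ S ∧ S ≤ Cr * δ ^ 2 ∧ (∀ ξ : ℂ, ‖ξ‖ = 1 → ‖T ξ - p‖ ≤ δ → ‖ξ - p‖ ≤ Cr * δ) ∧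
      (∀ ξ : ℂ, ‖ξ‖ = 1 → κ ≤ ‖T ξ - p‖ → κ / 2 ≤ ‖ξ - p‖ ∧
        ‖ξ - T ξ * Complex.exp (S * (p + ξ) / (p - ξ))‖ ≤ Cκ * S * δ))
    {K : ℝ} (hK : ∀ (U : Finset Fc) (z h : Fc) (a : Vx)
      (ka : Fin 3) (φ : ℂ → ℂ) (p : ℂ), IsDom U → z ∈ U → h ≠ z → One U a ka → fc a ka = h →
      K ≤ dst U z → DiscChart (reg U) φ → φ 0 = ctr z → ‖p‖ = 1 → φ p = pv a →
      (∀ w ∈ closedBall (0 : ℂ) 1, φ w ∈ cell h → ‖w - p‖ ≤ δ) ∧
      ∃ (φ' T : ℂ → ℂ) (S : ℝ), DiscChart (reg (comp (U \ {h}) z)) φ' ∧ φ' 0 = ctr z ∧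
        deriv φ' 0 = (Real.exp (-S) : ℝ) * deriv φ 0 ∧
        crad (comp (U \ {h}) z) z = Real.exp (-S) * crad U z ∧
        MapsTo T (closedBall 0 1) (closedBall 0 1) ∧
        (∀ w ∈ closedBall (0 : ℂ) 1, φ' w = φ (T w)) ∧
        ContinuousOn T (closedBall 0 1) ∧ InjOn T (closedBall 0 1) ∧
        DifferentiableOn ℂ T (ball 0 1) ∧
        MapsTo T (ball 0 1) (ball 0 1) ∧ T 0 = 0 ∧ deriv T 0 = (Real.exp (-S) : ℝ) ∧
        (∀ w ∈ ball (0 : ℂ) 1, δ < ‖w - p‖ → w ∈ T '' ball 0 1) ∧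
        (∀ q : ℂ, ‖q‖ = 1 → δ < ‖q - p‖ → ∃ q' : ℂ, ‖q'‖ = 1 ∧ T q' = q))
    {U0 : Finset Fc} {z : Fc} {φ0 : ℂ → ℂ} {α : ℝ} {q0 : Pos} {te : ℝ}
    (hte : κ ≤ |Real.sin (te / 2)|) (hte2 : φ0 (ee (α + te)) = pv (nb q0.1 q0.2))
    (hq0 : One U0 (nb q0.1 q0.2) q0.2)
    {U : Finset Fc} {col : Fc → Bool} {φ : ℂ → ℂ} {p : Pos} {A : ℂ} {S : ℝ}
    (h : Inv U0 z φ0 α q0 κ C1 δ r U col φ p A S) (hAr : ‖A - ee α‖ ≤ r) (hSr : S ≤ r ^ 2)
    (hdst : K ≤ dst U z) (hdst1 : 1 < dst U z) (c : Bool) :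
    ph p ≠ z ∧ ∃ φ' p' A' S', Inv U0 z φ0 α q0 κ C1 δ r (comp (U \ {ph p}) z)
      (Function.update col (ph p) c) φ' p' A' S' ∧ ‖A' - ee α‖ ≤ 11 / 10 * r ∧ S' ≤ 2 * r ^ 2 := by
  obtain ⟨k1, k2, k3, k4, k5, k6, k7, k8, k9, k10, k11, k12⟩ := h
  have hone := tip_one k8
  have hphz : ph p ≠ z := by
    intro hz
    have h1 := dst_le hVC (k' := p.2) hone.2.1
    have h2 : fc p.1 p.2 = z := hz
    rw [h2] at h1
    linarith
  refine ⟨hphz, ?_⟩
  obtain ⟨hcell, φ', T, S1, f1, f2, f3, f4, f5, f6, f7, f8, f9, f10, f11, f12, f13, f14⟩ :=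
    hK U z (ph p) p.1 p.2 φ A k1.dom k2 hphz hone rfl hdst k3 k4 k9 k10
  obtain ⟨g1, g2, g3, g4⟩ := hRAD T A S1 f7 f8 f9 f10 f11 f12 k9 f13
  have hmono : comp (U \ {ph p}) z ⊆ U := (comp_sub _ _).trans Finset.sdiff_subset
  have hzU' : z ∈ comp (U \ {ph p}) z := mem_comp_self (by simp [k2, Ne.symm hphz])
  have hC1pos : 0 ≤ C1 := by
    rw [hC1]
    positivity
  have hr2 : r ^ 2 ≤ r := by nlinarith
  have hS1 : S1 ≤ r ^ 2 := by
    refine g2.trans ?_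
    have : Cr * δ ^ 2 = (Cr * δ) * δ := by ring
    rw [this]
    calc (Cr * δ) * δ ≤ (r / 10) * r := by gcongr
      _ ≤ r ^ 2 := by nlinarith
  -- the marks
  have hmk : ∀ (v : Vx) (k : Fin 3) (t : ℝ), One U0 v k → κ ≤ |Real.sin (t / 2)| →
      φ0 (ee (α + t)) = pv v → fc v k ∈ comp (U \ {ph p}) z ∧
      ∃ q, ‖q‖ = 1 ∧ φ' q = pv v ∧ (∀ k', fc v k' ∈ comp (U \ {ph p}) z → k' = k) ∧
        ‖q - ee (α + t) * Complex.exp (((S + S1 : ℝ) : ℂ) * kk (ee α) (ee (α + t)))‖ ≤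
          C1 * (δ + r) * (S + S1) := by
    intro v k t hv ht hφ
    obtain ⟨m1, q, m2, m3, m4, m5⟩ := k12 v k t hv ht hφ
    set b0 := ee (α + t) with hb0
    set k0 := kk (ee α) b0 with hk0
    have hb0n : ‖b0‖ = 1 := R.ee_norm _
    have hsep : 2 * κ ≤ ‖ee α - b0‖ := by
      rw [hb0, R.ee_sub_eq]
      have : (α - (α + t)) / 2 = -(t / 2) := by ring
      rw [this, Real.sin_neg, abs_neg]
      linarith
    have hk0n : ‖k0‖ ≤ 2 / (2 * κ) := R.kk_norm_le (R.ee_norm α) hb0n (by positivity) hsep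
    have hk0n' : ‖k0‖ ≤ 1 / κ := by
      refine hk0n.trans (le_of_eq ?_)
      field_simp
    have hk0re : k0.re = 0 := R.kk_re (R.ee_norm α) hb0n
    have hex : ∀ s : ℝ, ‖Complex.exp (s * k0) - 1‖ ≤ |s| * (1 / κ) := by
      intro s
      have h1 := R.exp_diff (x := (s : ℂ) * k0) (y := 0) (by simp [hk0re]) (by simp)
      rw [Complex.exp_zero, sub_zero, norm_mul, Complex.norm_real, Real.norm_eq_abs] at h1
      exact h1.trans (by gcongr)
    -- `q` is close to `b0`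
    have hqb : ‖q - b0‖ ≤ S * (C1 * (δ + r) + 1 / κ) := by
      have h1 : q - b0 = (q - b0 * Complex.exp (S * k0)) + b0 * (Complex.exp (S * k0) - 1) := by ring
      rw [h1]
      refine (norm_add_le _ _).trans ?_
      rw [norm_mul, hb0n, one_mul]
      have h2 := hex S
      rw [abs_of_nonneg k7] at h2
      nlinarith
    have hrC : r * (2 * C1 + Cκ + 5 / κ) ≤ 1 / 2 := by linarith
    have hqb' : ‖q - b0‖ ≤ r / 2 := by
      refine hqb.trans ?_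
      have e1 : C1 * (δ + r) + 1 / κ ≤ 2 * C1 + Cκ + 5 / κ := by
        have : 1 / κ ≤ 5 / κ := by gcongr; norm_num
        have h3 : C1 * (δ + r) ≤ 2 * C1 := by nlinarith
        linarith
      have e2 : 0 ≤ C1 * (δ + r) + 1 / κ := by positivity
      calc S * (C1 * (δ + r) + 1 / κ) ≤ r ^ 2 * (2 * C1 + Cκ + 5 / κ) := by gcongr
        _ = r * (r * (2 * C1 + Cκ + 5 / κ)) := by ring
        _ ≤ r * (1 / 2) := by gcongr
        _ = r / 2 := by ring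
    have hqA : κ ≤ ‖q - A‖ := by
      have h1 : ‖ee α - b0‖ ≤ ‖ee α - A‖ + ‖A - q‖ + ‖q - b0‖ := by
        have : ee α - b0 = (ee α - A) + (A - q) + (q - b0) := by ring
        rw [this]
        exact norm_add₃_le
      rw [norm_sub_rev (ee α) A, norm_sub_rev A q] at h1
      linarith
    obtain ⟨q', n1, n2⟩ := f14 q m2 (by linarith)
    obtain ⟨n3, n4⟩ := g4 q' n1 (by rw [n2]; exact hqA)
    rw [n2] at n4
    have hq'm : q' ∈ closedBall (0 : ℂ) 1 := by simp [n1]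
    have n5 : φ' q' = pv v := by rw [f6 q' hq'm, n2, m3]
    have hkk : (S1 : ℂ) * (A + q') / (A - q') = S1 * kk A q' := by
      unfold kk
      rw [mul_div_assoc]
    rw [hkk] at n4
    have hkkn : ‖kk A q'‖ ≤ 4 / κ := by
      have := R.kk_norm_le k9 n1 (κ := κ / 2) (by positivity) (by rw [norm_sub_rev]; exact n3)
      refine this.trans (le_of_eq ?_)
      field_simp
      norm_num
    have hkkre : (kk A q').re = 0 := R.kk_re k9 n1
    have hq'q : ‖q' - q‖ ≤ S1 * (Cκ * δ + 4 / κ) := by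
      have h1 : q' - q = (q' - q * Complex.exp (S1 * kk A q')) +
        q * (Complex.exp (S1 * kk A q') - 1) := by ring
      rw [h1]
      refine (norm_add_le _ _).trans ?_
      rw [norm_mul, m2, one_mul]
      have h2 := R.exp_diff (x := (S1 : ℂ) * kk A q') (y := 0) (by simp [hkkre]) (by simp)
      rw [Complex.exp_zero, sub_zero, norm_mul, Complex.norm_real, Real.norm_eq_abs,
        abs_of_nonneg g1] at h2
      have h3 : S1 * ‖kk A q'‖ ≤ S1 * (4 / κ) := by gcongr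
      nlinarith
    have hq'q' : ‖q' - q‖ ≤ r / 2 := by
      refine hq'q.trans ?_
      have e1 : Cκ * δ + 4 / κ ≤ 2 * C1 + Cκ + 5 / κ := by
        have : 4 / κ ≤ 5 / κ := by gcongr; norm_num
        have h3 : Cκ * δ ≤ Cκ := by nlinarith
        linarith
      calc S1 * (Cκ * δ + 4 / κ) ≤ r ^ 2 * (2 * C1 + Cκ + 5 / κ) := by gcongr
        _ = r * (r * (2 * C1 + Cκ + 5 / κ)) := by ring
        _ ≤ r * (1 / 2) := by gcongr
        _ = r / 2 := by ring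
    have hq'b : ‖q' - b0‖ ≤ r := by
      have := norm_sub_le_norm_sub_add_norm_sub q' q b0
      linarith
    have hkd : ‖kk A q' - k0‖ ≤ 5 * r / κ ^ 2 := by
      have h1 := R.kk_sub (a := A) (b := q') (R.ee_norm α) hb0n (κ := κ / 2) (κ' := 2 * κ)
        (by positivity) (by positivity) (by rw [norm_sub_rev]; exact n3) hsep
      refine h1.trans ?_
      have h2 : κ / 2 * (2 * κ) = κ ^ 2 := by ring
      rw [h2]
      apply div_le_div_of_nonneg_right _ (by positivity)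
      linarith
    have hfin : ‖q' - b0 * Complex.exp (((S + S1 : ℝ) : ℂ) * k0)‖ ≤ C1 * (δ + r) * (S + S1) := by
      have h1 : q' - b0 * Complex.exp (((S + S1 : ℝ) : ℂ) * k0) =
          (q' - q * Complex.exp (S1 * kk A q')) +
          q * (Complex.exp (S1 * kk A q') - Complex.exp (S1 * k0)) +
          Complex.exp (S1 * k0) * (q - b0 * Complex.exp (S * k0)) := by
        have : Complex.exp (((S + S1 : ℝ) : ℂ) * k0) =
            Complex.exp (S * k0) * Complex.exp (S1 * k0) := by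
          rw [← Complex.exp_add]
          congr 1
          push_cast
          ring
        rw [this]
        ring
      rw [h1]
      refine norm_add₃_le.trans ?_
      rw [norm_mul, norm_mul, m2, one_mul]
      have h2 : ‖Complex.exp (S1 * k0)‖ = 1 := R.kk_exp_norm (R.ee_norm α) hb0n S1
      rw [h2, one_mul]
      have h3 := R.exp_diff (x := (S1 : ℂ) * kk A q') (y := (S1 : ℂ) * k0) (by simp [hkkre])
        (by simp [hk0re])
      rw [← mul_sub, norm_mul, Complex.norm_real, Real.norm_eq_abs, abs_of_nonneg g1] at h3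
      have h4 : S1 * ‖kk A q' - k0‖ ≤ S1 * (5 * r / κ ^ 2) := by gcongr
      have h5 : Cκ * S1 * δ + S1 * (5 * r / κ ^ 2) ≤ C1 * (δ + r) * S1 := by
        rw [hC1]
        have e1 : (Cκ + 5 / κ ^ 2) * (δ + r) * S1 =
          Cκ * S1 * δ + S1 * (5 * r / κ ^ 2) + (Cκ * r * S1 + 5 / κ ^ 2 * δ * S1) := by
          field_simp
          ring
        rw [e1]
        have : 0 ≤ Cκ * r * S1 + 5 / κ ^ 2 * δ * S1 := by positivity
        linarith
      nlinarith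
    -- the face stays
    have hcl : pv v ∈ closure (reg (comp (U \ {ph p}) z)) := by
      rw [← f1.imgc]
      exact ⟨q', hq'm, n5⟩
    obtain ⟨k', hk'⟩ := (hVC _ v).1 hcl
    have hkk' : k' = k := m4 k' (hmono hk')
    subst hkk'
    exact ⟨hk', q', n1, n5, fun k'' hk'' => m4 k'' (hmono hk''), hfin⟩
  -- the exit
  obtain ⟨qe, e1, e2⟩ := k11
  have hexin : pb qe ∈ comp (U \ {ph p}) z := by
    have h1 := (hmk _ _ te hq0 hte hte2).1
    have h2 : One U (nb qe.1 qe.2) qe.2 := exit_one e1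
    rw [← e2] at h1
    have h3 : q0.2 = qe.2 := h2.uniq (hmono h1)
    rw [h3] at h1
    exact h1
  obtain ⟨hst', hecs⟩ := hECS U col z p qe k1 k2 k8 e1 hphz
  obtain ⟨hdom', s, hs1, hs2⟩ := hSt U z (ph p) p.1 p.2 k1.dom k2 hphz hone rfl
  obtain ⟨p', q1, i1, i2, i3, i4⟩ := hecs hexin s (fun M hM hM1 c => by
    obtain ⟨M', hM'⟩ := hs2 2 le_rfl M 0 hM (by
      intro i hi
      have : i = 1 := by
        revert hi
        revert i
        decide
      subst this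
      exact hM1) c
    exact ⟨M', hM'⟩) c
  -- the new tip
  obtain ⟨ks, hks⟩ := hs1 c
  have hcell' : pv p'.1 ∈ cell (ph p) := by
    rw [i2, ← hks]
    exact Pool.Agent.H21.UC.pv_mem _ _
  have hone' := tip_one i1
  obtain ⟨A', j1, j2⟩ := ((hCH _ z hdom' hzU').2.1 φ' f1 f2).2.2 p'.1 (p'.2 + 1)
    ⟨p'.2, hone'.1⟩ hone'.2.1
  have hA'm : A' ∈ closedBall (0 : ℂ) 1 := by simp [j1]
  have hTA' : ‖T A' - A‖ ≤ δ := by
    apply hcell _ (f5 hA'm)
    rw [← f6 A' hA'm, j2]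
    exact hcell'
  have hA'A := g3 A' j1 hTA'
  refine ⟨φ', p', A', S + S1, ⟨hst' c, hzU', f1, f2, ?_, ?_, by linarith, i1, j1, j2,
    ⟨q1, i3, by rw [i4, e2]⟩, ?_⟩, ?_, by linarith⟩
  · rw [f3, k5, ← mul_assoc]
    congr 1
    rw [← Complex.ofReal_mul, ← Real.exp_add]
    congr 2
    ring
  · rw [f4, k6, ← mul_assoc, ← Real.exp_add]
    congr 2
    ring
  · intro v k t hv ht hφ
    obtain ⟨m1, q, m2, m3, m4, m5⟩ := hmk v k t hv ht hφ
    exact ⟨m1, q, m2, m3, m4, m5⟩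
  · have := norm_sub_le_norm_sub_add_norm_sub A' A (ee α)
    linarith

end Pool.Agent.H93.SM
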