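import Pool.Agent.H93.SM.MS2

set_option autoImplicit false
open Pool.Agent.H75.Perc Metric Set Filter Topology Pool.Agent.H7.UC Pool.Agent.H74.Tri
open Pool.Agent.H93.SM.R (ee kk)

/-! Geometric half of MS: the invariant along a micro-step. -/

namespace Pool.Agent.H93.SM

theorem lS_eq {U0 U : Finset Fc} {z : Fc} {S : ℝ} (h0 : 0 < crad U0 z)
    (h : crad U z = Real.exp (-S) * crad U0 z) : lS U0 U z = S := by
  unfold lS
  rw [h, Real.log_div h0.ne' (by positivity), Real.log_mul (Real.exp_pos _).ne' h0.ne',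
    Real.log_exp]
  ring

theorem geo (hRAD : RAD) (hSL : SL) (hSt : Pool.Agent.H7.SM.STEP') (hECT : ECT) (hECS : ECS)
    (hCH : CH) (hCU : CU) (hVC : VC) : ∀ κ : ℝ, 0 < κ → κ ≤ 1 → ∃ C r0 : ℝ, 0 < C ∧ 0 < r0 ∧
    ∀ r : ℝ, 0 < r → r ≤ r0 → ∀ K' : ℝ, ∃ K : ℝ,
    ∀ (U0 : Finset Fc) (col0 : Fc → Bool) (z : Fc) (φ0 : ℂ → ℂ) (α te : ℝ) (p0 q0 : Pos),
    Root U0 col0 z φ0 α p0 q0 → K ≤ dst U0 z → κ ≤ |Real.sin (te / 2)| →
    φ0 (ee (α + te)) = pv (nb q0.1 q0.2) →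
    ¬ (r ≤ |dW φ0 α z U0 col0| ∨ r ^ 2 ≤ lS U0 U0 z) ∧
    (∀ U col hi, Rh z (fun U col _ => r ≤ |dW φ0 α z U col| ∨ r ^ 2 ≤ lS U0 U z) U0 col0 [] U col hi →
      K' ≤ dst U z ∧
      ((r ≤ |dW φ0 α z U col| ∨ r ^ 2 ≤ lS U0 U z) → r ^ 2 ≤ dW φ0 α z U col ^ 2 + lS U0 U z) ∧
      ∃ φ, Data U0 z φ0 α q0 κ C r U col φ (dW φ0 α z U col) (lS U0 U z)) := by
  intro κ hκ hκ1
  obtain ⟨Cr, hCr, hR⟩ := hRAD
  obtain ⟨Cκ', δ0, hδ0, hR'⟩ := hR κ hκ
  set Cκ : ℝ := |Cκ'| with hCκdef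
  have hCκ : 0 ≤ Cκ := abs_nonneg _
  set C1 : ℝ := Cκ + 5 / κ ^ 2 with hC1
  have hC1pos : 0 < C1 := by positivity
  set B : ℝ := 2 * C1 + Cκ + 5 / κ with hB
  have hBpos : 0 < B := by positivity
  refine ⟨8 * C1, min (1 / 4) (min (κ / 4) (1 / (2 * B))), by positivity, by positivity, ?_⟩
  intro r hr hr0 K'
  have hr1 : r ≤ 1 / 4 := hr0.trans (min_le_left _ _)
  have hr2 : r ≤ κ / 4 := hr0.trans ((min_le_right _ _).trans (min_le_left _ _))
  have hr3 : r ≤ 1 / (2 * B) := hr0.trans ((min_le_right _ _).trans (min_le_right _ _))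
  have hrs : 2 * r * B ≤ 1 := by
    rw [le_div_iff₀ (by positivity)] at hr3
    linarith
  set δ : ℝ := min (min (1 / 10) δ0) (min r (r / (10 * Cr))) with hδdef
  have hδ : 0 < δ := by positivity
  have hδ1 : δ ≤ 1 / 10 := (min_le_left _ _).trans (min_le_left _ _)
  have hδ2 : δ ≤ δ0 := (min_le_left _ _).trans (min_le_right _ _)
  have hδ3 : δ ≤ r := (min_le_right _ _).trans (min_le_left _ _)
  have hδ4 : Cr * δ ≤ r / 10 := by
    have : δ ≤ r / (10 * Cr) := (min_le_right _ _).trans (min_le_right _ _)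
    rw [le_div_iff₀ (by positivity)] at this
    linarith
  obtain ⟨K1, hK1⟩ := hSL δ hδ hδ1
  refine ⟨5 * max (max K1 K') 2, ?_⟩
  intro U0 col0 z φ0 α te p0 q0 hroot hdst hte hte2
  have hcr0 : 0 < crad U0 z ∧ dst U0 z ≤ crad U0 z := by
    obtain ⟨_, _, _, h1, h2, _⟩ := hCH U0 z hroot.st.dom hroot.mem
    exact ⟨by linarith, h2⟩
  have hq0 : One U0 (nb q0.1 q0.2) q0.2 := exit_one hroot.exit
  have hdW0 : dW φ0 α z U0 col0 = 0 := by
    have hPo : Po φ0 z U0 p0.1 (ee α) := ⟨R.ee_norm α, φ0, 0, hroot.chart, hroot.zero,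
      by simp, hroot.pos⟩
    have h1 := (dW_spec (α := α) hECT hCU hroot.chart hroot.st hroot.tip hPo).2.2.1
    rw [sub_self, norm_zero, mul_zero] at h1
    exact abs_nonpos_iff.1 h1
  have hlS0 : lS U0 U0 z = 0 := by
    apply lS_eq hcr0.1
    simp
  refine ⟨?_, ?_⟩
  · rw [hdW0, hlS0, abs_zero]
    push Not
    exact ⟨hr, by positivity⟩
  -- bounds for the distance
  have hdstU : ∀ (U : Finset Fc) (col : Fc → Bool) (S : ℝ), St U col → z ∈ U →
      crad U z = Real.exp (-S) * crad U0 z → S ≤ 2 * r ^ 2 → K1 ≤ dst U z ∧ K' ≤ dst U z ∧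
        2 ≤ dst U z := by
    intro U col S hst hz hcr hS
    obtain ⟨_, _, _, _, _, h3⟩ := hCH U z hst.dom hz
    have h4 : S ≤ 1 / 8 := by nlinarith
    have h5 : (4 : ℝ) / 5 ≤ Real.exp (-S) := by
      have := Real.add_one_le_exp (-S)
      linarith
    have h6 : 4 / 5 * dst U0 z ≤ crad U z := by
      rw [hcr]
      have h7 : 0 ≤ dst U0 z := infDist_nonneg
      calc 4 / 5 * dst U0 z ≤ Real.exp (-S) * dst U0 z := by gcongr
        _ ≤ Real.exp (-S) * crad U0 z := by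
          have := hcr0.2
          gcongr
    have h7 : max (max K1 K') 2 ≤ dst U z := by linarith
    exact ⟨((le_max_left _ _).trans (le_max_left _ _)).trans h7,
      ((le_max_right _ _).trans (le_max_left _ _)).trans h7, (le_max_right _ _).trans h7⟩
  have key : ∀ U col hi, Rh z (fun U col _ => r ≤ |dW φ0 α z U col| ∨ r ^ 2 ≤ lS U0 U z)
      U0 col0 [] U col hi → ∃ φ p A S, Inv U0 z φ0 α q0 κ C1 δ r U col φ p A S ∧
        ‖A - ee α‖ ≤ 11 / 10 * r ∧ S ≤ 2 * r ^ 2 := by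
    intro U col hi h
    induction h with
    | refl =>
      refine ⟨φ0, p0, ee α, 0, ⟨hroot.st, hroot.mem, hroot.chart, hroot.zero, by simp, by simp,
        le_rfl, hroot.tip, R.ee_norm α, hroot.pos, ⟨q0, hroot.exit, rfl⟩, ?_⟩, ?_, by positivity⟩
      · intro v k t hv ht hφ
        refine ⟨hv.1, ee (α + t), R.ee_norm _, hφ, fun k' hk' => hv.uniq hk', ?_⟩
        simp
      · rw [sub_self, norm_zero]
        positivity
    | step U col hi s c _ hns hs hsz ih =>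
      obtain ⟨φ, p, A, S, hI, hA, hS⟩ := ih
      have hsp : s = ph p := by
        rw [tipF_eq hECT hI.st hI.tip] at hs
        exact (Option.some.inj hs).symm
      subst hsp
      push Not at hns
      have hlS := lS_eq hcr0.1 hI.cr
      have h1 := dW_spec (α := α) hECT hCU hroot.chart hI.st hI.tip hI.po
      have h2 : ‖A - ee α‖ ≤ r := h1.2.2.2.trans hns.1.le
      have h3 : S ≤ r ^ 2 := by
        rw [hlS] at hns
        exact hns.2.le
      obtain ⟨d1, d2, d3⟩ := hdstU U col S hI.st hI.mem hI.cr hS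
      have := Inv.step hSL hSt hECS hCH hVC hκ hκ1 hr hr1 hCr hδ hδ1 hδ4 hδ3 hCκ hC1 hrs
        (by linarith) (fun T p S g1 g2 g3 g4 g5 g6 g7 g8 => by
          obtain ⟨u1, u2, u3, u4⟩ := hR' δ hδ hδ2 T p S g1 g2 g3 g4 g5 g6 g7 g8
          refine ⟨u1, u2, u3, fun ξ h1 h2 => ⟨(u4 ξ h1 h2).1, (u4 ξ h1 h2).2.trans ?_⟩⟩
          have : Cκ' ≤ Cκ := le_abs_self _
          gcongr) hK1 hte hte2 hq0 hI h2 h3 d1 (by linarith) c
      obtain ⟨_, φ', p', A', S', i1, i2, i3⟩ := this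
      exact ⟨φ', p', A', S', i1, i2, i3⟩
  intro U col hi h
  obtain ⟨φ, p, A, S, hI, hA, hS⟩ := key U col hi h
  have hlS := lS_eq hcr0.1 hI.cr
  have h1 := dW_spec (α := α) hECT hCU hroot.chart hI.st hI.tip hI.po
  obtain ⟨d1, d2, d3⟩ := hdstU U col S hI.st hI.mem hI.cr hS
  refine ⟨d2, ?_, φ, ?_⟩
  · rw [hlS]
    have hS0 := hI.S0
    rintro (h2 | h2)
    · have : r ^ 2 ≤ |dW φ0 α z U col| ^ 2 := by gcongr
      rw [sq_abs] at this
      linarith
    · have := sq_nonneg (dW φ0 α z U col)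
      linarith
  · rw [hlS]
    refine ⟨hI.st, hI.mem, hI.chart, hI.zero, hI.der, hI.cr, hI.S0, hS, ?_, ⟨p, hI.tip, ?_, ?_⟩,
      hI.exit, ?_⟩
    · have := h1.2.2.1
      linarith
    · intro hz
      have h2 := dst_le hVC (k' := p.2) (tip_one hI.tip).2.1
      have h3 : fc p.1 p.2 = z := hz
      rw [h3] at h2
      linarith
    · rw [h1.1]
      exact hI.Ap
    · intro v k t hv ht hφ
      obtain ⟨m1, q, m2, m3, m4, m5⟩ := hI.mrk v k t hv ht hφ
      refine ⟨m1, ?_⟩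
      have hne : Real.sin (t / 2) ≠ 0 := by
        intro h0
        rw [h0, abs_zero] at ht
        linarith
      rw [R.ee_exp_kk α t S hne] at m5
      have h5 : C1 * (δ + r) * S ≤ 4 * C1 * r ^ 3 := by
        have hS0 := hI.S0
        calc C1 * (δ + r) * S ≤ C1 * (r + r) * (2 * r ^ 2) := by gcongr
          _ = 4 * C1 * r ^ 3 := by ring
      obtain ⟨θ, hθ, hθ2⟩ := R.angle m2 (m5.trans h5)
      refine ⟨θ - α, ?_, ?_⟩
      · rw [add_sub_cancel, ← hθ]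
        exact m3
      · have : θ - α - (t + S * Real.cot (t / 2)) = θ - (α + (t + S * Real.cot (t / 2))) := by ring
        rw [this]
        linarith

end Pool.Agent.H93.SM
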