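import Pool.Agent.H93.SM.Rad3
import Pool.Agent.H93.SM.Iface

set_option autoImplicit false
open Complex Metric Set Filter Topology Real

namespace Pool.Agent.H93.SM

theorem rad : RAD := by
  refine ⟨200, by norm_num, fun κ hκ => ?_⟩
  have hκ' : 0 < min κ 1 := lt_min hκ one_pos
  refine ⟨14000 / (min κ 1) ^ 2, min (1 / 300) (min κ 1 / 700), by positivity, ?_⟩
  intro δ hδ hδ0 T p S hTc hTi hTd hTm hT0 hTD hp hh
  have hδ1 : δ ≤ 1 / 300 := hδ0.trans (min_le_left _ _)
  have hδ2 : 700 * δ ≤ min κ 1 := by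
    have := hδ0.trans (min_le_right _ _)
    linarith
  have hpc : p * (starRingEnd ℂ) p = 1 := by
    rw [Complex.mul_conj, Complex.normSq_eq_norm_sq, hp]
    simp
  have hpc' : (starRingEnd ℂ) p * p = 1 := by rw [mul_comm]; exact hpc
  have hpn : ‖(starRingEnd ℂ) p‖ = 1 := by rw [Complex.norm_conj, hp]
  have hp0 : p ≠ 0 := by
    intro h
    rw [h] at hp
    simp at hp
  set T' : ℂ → ℂ := fun w => (starRingEnd ℂ) p * T (p * w) with hT'
  have hmc : MapsTo (fun w => p * w) (closedBall (0 : ℂ) 1) (closedBall 0 1) := by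
    intro w hw
    simpa [hp] using hw
  have hmb : MapsTo (fun w => p * w) (ball (0 : ℂ) 1) (ball 0 1) := by
    intro w hw
    simpa [hp] using hw
  have key : ∀ w, ‖T' w - 1‖ = ‖T (p * w) - p‖ := by
    intro w
    rw [hT']
    have : (starRingEnd ℂ) p * T (p * w) - 1 = (starRingEnd ℂ) p * (T (p * w) - p) := by
      rw [mul_sub, hpc']
    simp only
    rw [this, norm_mul, hpn, one_mul]
  have H : R.Hy T' S δ := by
    constructor
    · apply ContinuousOn.mul continuousOn_const
      exact hTc.comp (by fun_prop) hmc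
    · intro x hx y hy hxy
      simp only [hT'] at hxy
      have h1 : T (p * x) = T (p * y) := by
        have := congrArg (fun z => p * z) hxy
        simpa [← mul_assoc, hpc] using this
      exact mul_left_cancel₀ hp0 (hTi (hmc hx) (hmc hy) h1)
    · apply DifferentiableOn.mul (differentiableOn_const _)
      exact hTd.comp (by fun_prop) hmb
    · intro w hw
      have := hTm (hmb hw)
      simpa [hT', hp] using this
    · simp [hT', hT0]
    · have h1 : HasDerivAt T (deriv T 0) (p * 0) := by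
        rw [mul_zero]
        exact ((hTd 0 (mem_ball_self one_pos)).differentiableAt
          (ball_mem_nhds 0 one_pos)).hasDerivAt
      have h2 : HasDerivAt (fun w : ℂ => p * w) p 0 := by
        simpa using (hasDerivAt_id (0 : ℂ)).const_mul p
      have h3 : HasDerivAt (fun w => T (p * w)) (deriv T 0 * p) 0 :=
        HasDerivAt.comp (0 : ℂ) h1 h2
      have h4 := h3.const_mul ((starRingEnd ℂ) p)
      rw [hT', h4.deriv, hTD, mul_left_comm, hpc', mul_one]
    · intro w hw hw2
      have h1 : p * w ∈ ball (0 : ℂ) 1 := hmb hw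
      have h2 : δ < ‖p * w - p‖ := by
        have : p * w - p = p * (w - 1) := by ring
        rw [this, norm_mul, hp, one_mul]
        exact hw2
      obtain ⟨v, hv, hv2⟩ := hh _ h1 h2
      refine ⟨(starRingEnd ℂ) p * v, ?_, ?_⟩
      · simpa [hp] using hv
      · simp only [hT']
        rw [← mul_assoc, hpc, one_mul, hv2, ← mul_assoc, hpc', one_mul]
    · exact hδ
    · exact hδ1
  have hrot : ∀ ξ : ℂ, ‖ξ‖ = 1 → ∃ ζ : ℂ, ‖ζ‖ = 1 ∧ ξ = p * ζ ∧ ‖ζ - 1‖ = ‖ξ - p‖ := by
    intro ξ hξ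
    refine ⟨(starRingEnd ℂ) p * ξ, by rw [norm_mul, hpn, hξ, one_mul], ?_, ?_⟩
    · rw [← mul_assoc, hpc, one_mul]
    · have : (starRingEnd ℂ) p * ξ - 1 = (starRingEnd ℂ) p * (ξ - p) := by rw [mul_sub, hpc']
      rw [this, norm_mul, hpn, one_mul]
  refine ⟨H.S_nonneg, ?_, ?_, ?_⟩
  · have := H.S_le
    have h2 : 0 ≤ δ ^ 2 := sq_nonneg _
    linarith
  · intro ξ hξ h
    obtain ⟨ζ, hζ, rfl, hζ2⟩ := hrot ξ hξ
    rw [← key] at h
    have := H.loc hζ h
    rw [← hζ2]
    linarith
  · intro ξ hξ h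
    obtain ⟨ζ, hζ, rfl, hζ2⟩ := hrot ξ hξ
    rw [← key] at h
    refine ⟨?_, ?_⟩
    · rw [← hζ2]
      exact H.far (by linarith [min_le_left κ 1]) hζ h
    · have h1 := H.exact hδ2 (min_le_right _ _) hζ ((min_le_left _ _).trans h)
      have h2 : (p + p * ζ) / (p - p * ζ) = (1 + ζ) / (1 - ζ) := by
        rw [show p + p * ζ = p * (1 + ζ) by ring, show p - p * ζ = p * (1 - ζ) by ring,
          mul_div_mul_left _ _ hp0]
      have h3 : (S : ℂ) * (p + p * ζ) / (p - p * ζ) = S * ((1 + ζ) / (1 - ζ)) := by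
        rw [mul_div_assoc, h2]
      rw [h3]
      have h4 : p * ζ - T (p * ζ) * Complex.exp (S * ((1 + ζ) / (1 - ζ))) =
          p * (ζ - T' ζ * Complex.exp (S * ((1 + ζ) / (1 - ζ)))) := by
        rw [hT']
        simp only
        rw [mul_sub, ← mul_assoc, ← mul_assoc, hpc, one_mul]
      rw [h4, norm_mul, hp, one_mul]
      exact h1

end Pool.Agent.H93.SM
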