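import Mathlib

set_option autoImplicit false
open Complex Metric Set Filter Topology Real InnerProductSpace

namespace Pool.Agent.H93.SM.R

theorem harm {Q : ℂ → ℂ} (hc : ContinuousOn Q (closedBall 0 1))
    (hd : DifferentiableOn ℂ Q (ball 0 1)) (h0 : ∀ w ∈ closedBall (0 : ℂ) 1, Q w ≠ 0) :
    HarmonicContOnCl (fun ζ => Real.log ‖Q ζ‖) (ball (0 : ℂ) 1) := by
  constructor
  · intro w hw
    apply AnalyticAt.harmonicAt_log_norm
    · exact hd.analyticAt (isOpen_ball.mem_nhds hw)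
    · exact h0 w (ball_subset_closedBall hw)
  · rw [closure_ball (0 : ℂ) one_ne_zero]
    exact hc.norm.log fun w hw => norm_ne_zero_iff.2 (h0 w hw)

theorem herglotz {Q : ℂ → ℂ} {S : ℝ} (hc : ContinuousOn Q (closedBall 0 1))
    (hd : DifferentiableOn ℂ Q (ball 0 1)) (h0 : ∀ w ∈ closedBall (0 : ℂ) 1, Q w ≠ 0)
    (hQ0 : Q 0 = (Real.exp (-S) : ℝ)) :
    circleAverage (fun ζ => Real.log ‖Q ζ‖) 0 1 = -S ∧
    ∀ w ∈ ball (0 : ℂ) 1, Q w = Complex.exp
      (circleAverage (fun ζ => herglotzRieszKernel 0 w ζ • ((Real.log ‖Q ζ‖ : ℝ) : ℂ)) 0 1) := by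
  have hH := harm hc hd h0
  have hci : CircleIntegrable (fun ζ => Real.log ‖Q ζ‖) 0 1 := by
    have : ContinuousOn (fun ζ => Real.log ‖Q ζ‖) (sphere 0 |1|) := by
      apply hH.continuousOn_ball.mono
      simp only [abs_one]
      exact sphere_subset_closedBall
    exact this.circleIntegrable'
  have hci2 : CircleIntegrable (fun ζ => ((Real.log ‖Q ζ‖ : ℝ) : ℂ)) 0 1 := by
    have : ContinuousOn (fun ζ => ((Real.log ‖Q ζ‖ : ℝ) : ℂ)) (sphere 0 |1|) := by
      apply Complex.continuous_ofReal.comp_continuousOn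
      apply hH.continuousOn_ball.mono
      simp only [abs_one]
      exact sphere_subset_closedBall
    exact this.circleIntegrable'
  have hmv : circleAverage (fun ζ => Real.log ‖Q ζ‖) 0 1 = -S := by
    have := HarmonicContOnCl.circleAverage_eq (f := fun ζ => Real.log ‖Q ζ‖) (c := 0) (R := 1)
      (by simpa using hH)
    rw [this, hQ0, Complex.norm_real, Real.norm_eq_abs, abs_of_pos (Real.exp_pos _), Real.log_exp]
  refine ⟨hmv, ?_⟩
  set H : ℂ → ℂ := fun w => circleAverage (fun ζ => herglotzRieszKernel 0 w ζ •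
    ((Real.log ‖Q ζ‖ : ℝ) : ℂ)) 0 1 with hHdef
  have hHd : DifferentiableOn ℂ H (ball 0 1) :=
    differentiableOn_circleAverage_herglotzRieszKernel_smul hci2
  have hre : ∀ w ∈ ball (0 : ℂ) 1, (H w).re = Real.log ‖Q w‖ := by
    intro w hw
    rw [hHdef]
    simp only
    rw [re_circleAverage_herglotzRieszKernel_smul hci hw]
    exact hH.circleAverage_re_herglotzRieszKernel_smul hw
  set G : ℂ → ℂ := fun w => Q w * Complex.exp (-H w) with hG
  have hGd : DifferentiableOn ℂ G (ball 0 1) := hd.mul (hHd.neg.cexp)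
  have hn : ∀ w ∈ ball (0 : ℂ) 1, ‖G w‖ = 1 := by
    intro w hw
    have h1 := h0 w (ball_subset_closedBall hw)
    rw [hG]
    simp only
    rw [norm_mul, Complex.norm_exp, neg_re, hre w hw, Real.exp_neg, Real.exp_log (norm_pos_iff.2 h1)]
    field_simp [norm_ne_zero_iff.2 h1]
  have hG0 : G 0 = 1 := by
    have h1 : H 0 = ((-S : ℝ) : ℂ) := by
      rw [hHdef]
      simp only
      have h2 : circleAverage (fun ζ => herglotzRieszKernel 0 0 ζ • ((Real.log ‖Q ζ‖ : ℝ) : ℂ)) 0 1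
          = circleAverage (fun ζ => ((Real.log ‖Q ζ‖ : ℝ) : ℂ)) 0 1 := by
        apply circleAverage_congr_sphere
        intro ζ hζ
        have h3 : ζ ≠ 0 := by
          rintro rfl
          simp at hζ
        simp [herglotzRieszKernel_def, h3]
      rw [h2, ← hmv]
      have := Complex.ofRealCLM.circleAverage_comp_comm hci
      simpa [Function.comp_def] using this
    rw [hG]
    simp only
    rw [h1, hQ0]
    push_cast
    rw [← Complex.exp_add]
    simp
  have hconst : EqOn G (Function.const ℂ (G 0)) (ball 0 1) := by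
    apply Complex.eqOn_of_isPreconnected_of_isMaxOn_norm (convex_ball (0 : ℂ) 1).isPreconnected
      isOpen_ball hGd (mem_ball_self one_pos)
    intro w hw
    simp only [mem_setOf_eq, Function.comp]
    rw [hn w hw, hn 0 (mem_ball_self one_pos)]
  intro w hw
  have h1 := hconst hw
  simp only [Function.const, hG0] at h1
  rw [hG] at h1
  simp only at h1
  have h2 : Q w = Complex.exp (H w) := by
    have : Complex.exp (-H w) ≠ 0 := Complex.exp_ne_zero _
    rw [Complex.exp_neg] at h1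
    field_simp at h1
    exact h1
  exact h2

/-- estimate of the Herglotz integral: `Q w * exp (-c)` with `c = ∫ k u`. -/
theorem close {Q : ℂ → ℂ} {S : ℝ} (hc : ContinuousOn Q (closedBall 0 1))
    (hd : DifferentiableOn ℂ Q (ball 0 1)) (h0 : ∀ w ∈ closedBall (0 : ℂ) 1, Q w ≠ 0)
    (hQ0 : Q 0 = (Real.exp (-S) : ℝ)) (h1 : ∀ ζ ∈ sphere (0 : ℂ) 1, ‖Q ζ‖ ≤ 1)
    {w k : ℂ} (hw : w ∈ ball (0 : ℂ) 1) {M : ℝ} (hM : 0 ≤ M)
    (hk : ∀ ζ ∈ sphere (0 : ℂ) 1, ‖Q ζ‖ ≠ 1 → ‖herglotzRieszKernel 0 w ζ - k‖ ≤ M)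
    (hMS : M * S ≤ 1) : ‖Q w * Complex.exp (S * k) - 1‖ ≤ 2 * (M * S) := by
  obtain ⟨hS, hH⟩ := herglotz hc hd h0 hQ0
  have hcont : ContinuousOn (fun ζ => Real.log ‖Q ζ‖) (sphere (0 : ℂ) |1|) := by
    rw [abs_one]
    exact (hc.mono sphere_subset_closedBall).norm.log
      fun w hw => norm_ne_zero_iff.2 (h0 w (sphere_subset_closedBall hw))
  have hcont2 : ContinuousOn (fun ζ => ((Real.log ‖Q ζ‖ : ℝ) : ℂ)) (sphere (0 : ℂ) |1|) :=
    Complex.continuous_ofReal.comp_continuousOn hcont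
  have hci2 : CircleIntegrable (fun ζ => ((Real.log ‖Q ζ‖ : ℝ) : ℂ)) 0 1 := hcont2.circleIntegrable'
  have hkc : ContinuousOn (herglotzRieszKernel 0 w) (sphere (0 : ℂ) |1|) :=
    continuousOn_herglotzRieszKernel_sphere hw
  have hci3 : CircleIntegrable (fun ζ => herglotzRieszKernel 0 w ζ • ((Real.log ‖Q ζ‖ : ℝ) : ℂ)) 0 1 :=
    (hkc.smul hcont2).circleIntegrable'
  set E : ℂ := circleAverage (fun ζ => (herglotzRieszKernel 0 w ζ - k) •
    ((Real.log ‖Q ζ‖ : ℝ) : ℂ)) 0 1 with hE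
  have hsub : E = circleAverage (fun ζ => herglotzRieszKernel 0 w ζ • ((Real.log ‖Q ζ‖ : ℝ) : ℂ)) 0 1
      + S * k := by
    have e1 : circleAverage (fun ζ => ((Real.log ‖Q ζ‖ : ℝ) : ℂ)) 0 1 = ((-S : ℝ) : ℂ) := by
      rw [← hS]
      have := Complex.ofRealCLM.circleAverage_comp_comm (hcont.circleIntegrable')
      simpa [Function.comp_def] using this
    have e2 : circleAverage (fun ζ => k • ((Real.log ‖Q ζ‖ : ℝ) : ℂ)) 0 1 = k * ((-S : ℝ) : ℂ) := by
      rw [circleAverage_fun_smul, e1, smul_eq_mul]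
    have hci4 : CircleIntegrable (fun ζ => k • ((Real.log ‖Q ζ‖ : ℝ) : ℂ)) 0 1 :=
      (hcont2.const_smul k).circleIntegrable'
    have e3 : E = circleAverage (fun ζ => herglotzRieszKernel 0 w ζ • ((Real.log ‖Q ζ‖ : ℝ) : ℂ)) 0 1
        - circleAverage (fun ζ => k • ((Real.log ‖Q ζ‖ : ℝ) : ℂ)) 0 1 := by
      rw [hE, ← circleAverage_fun_sub hci3 hci4]
      congr 1
      funext ζ
      rw [sub_smul]
    rw [e3, e2]
    push_cast
    ring
  have hEn : ‖E‖ ≤ M * S := by
    have h2 : ‖E‖ ≤ circleAverage (fun ζ => M * (-Real.log ‖Q ζ‖)) 0 1 := by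
      rw [hE, circleAverage_def, circleAverage_def, norm_smul, smul_eq_mul, Real.norm_eq_abs,
        abs_of_pos (inv_pos.2 two_pi_pos)]
      apply mul_le_mul_of_nonneg_left _ (inv_pos.2 two_pi_pos).le
      apply intervalIntegral.norm_integral_le_of_norm_le two_pi_pos.le
      · filter_upwards with θ _
        have hm : circleMap 0 1 θ ∈ sphere (0 : ℂ) 1 := by simp [circleMap]
        have hQ1 := h1 _ hm
        have hQp : 0 < ‖Q (circleMap 0 1 θ)‖ :=
          norm_pos_iff.2 (h0 _ (sphere_subset_closedBall hm))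
        have hlog : Real.log ‖Q (circleMap 0 1 θ)‖ ≤ 0 := Real.log_nonpos hQp.le hQ1
        rw [norm_smul, Complex.norm_real, Real.norm_eq_abs, abs_of_nonpos hlog]
        by_cases hne : ‖Q (circleMap 0 1 θ)‖ = 1
        · simp [hne]
        · exact mul_le_mul_of_nonneg_right (hk _ hm hne) (by linarith)
      · have : CircleIntegrable (fun ζ => M * (-Real.log ‖Q ζ‖)) 0 1 :=
          (hcont.neg.const_smul M).circleIntegrable'
        exact this
    have h3 : circleAverage (fun ζ => M * (-Real.log ‖Q ζ‖)) 0 1 = M * S := by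
      have h4 : (fun ζ => M * (-Real.log ‖Q ζ‖)) = fun ζ => (-M) • Real.log ‖Q ζ‖ := by
        funext ζ
        simp
      rw [h4, circleAverage_fun_smul, hS]
      simp
    exact h2.trans h3.le
  have hfin : Q w * Complex.exp (S * k) = Complex.exp E := by
    rw [hH w hw, ← Complex.exp_add, hsub]
  rw [hfin]
  calc ‖Complex.exp E - 1‖ ≤ 2 * ‖E‖ := Complex.norm_exp_sub_one_le (hEn.trans hMS)
    _ ≤ 2 * (M * S) := by linarith

end Pool.Agent.H93.SM.R
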