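import Pool.Agent.H93.SM.Rad2

set_option autoImplicit false
open Complex Metric Set Filter Topology Real InnerProductSpace

namespace Pool.Agent.H93.SM.R

variable {T : ℂ → ℂ} {S δ : ℝ}

theorem Hy.Qc (H : Hy T S δ) : ContinuousOn (dslope T 0) (closedBall 0 1) := by
  rw [continuousOn_dslope (closedBall_mem_nhds 0 one_pos)]
  exact ⟨H.c, (H.d 0 (mem_ball_self one_pos)).differentiableAt (ball_mem_nhds 0 one_pos)⟩

theorem Hy.Qd (H : Hy T S δ) : DifferentiableOn ℂ (dslope T 0) (ball 0 1) := by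
  rw [Complex.differentiableOn_dslope (ball_mem_nhds 0 one_pos)]
  exact H.d

theorem Hy.Qmul (H : Hy T S δ) (w : ℂ) : w * dslope T 0 w = T w := by
  have := sub_smul_dslope T 0 w
  simpa [H.z] using this

theorem Hy.Q0 (H : Hy T S δ) : dslope T 0 0 = (Real.exp (-S) : ℝ) := by
  rw [dslope_same, H.D]

theorem Hy.Qne (H : Hy T S δ) : ∀ w ∈ closedBall (0 : ℂ) 1, dslope T 0 w ≠ 0 := by
  intro w hw h
  rcases eq_or_ne w 0 with rfl | h1
  · rw [H.Q0] at h
    exact (Real.exp_pos (-S)).ne' (by exact_mod_cast h)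
  · have h2 := H.Qmul w
    rw [h, mul_zero, ← H.z] at h2
    exact h1 (H.i (mem_closedBall_self zero_le_one) hw h2).symm

theorem Hy.Qn (H : Hy T S δ) {ζ : ℂ} (hζ : ‖ζ‖ = 1) : ‖dslope T 0 ζ‖ = ‖T ζ‖ := by
  rw [← H.Qmul ζ, norm_mul, hζ, one_mul]

theorem Hy.Qle (H : Hy T S δ) : ∀ ζ ∈ sphere (0 : ℂ) 1, ‖dslope T 0 ζ‖ ≤ 1 := by
  intro ζ hζ
  rw [H.Qn (by simpa using hζ)]
  exact H.mem_ball_of (sphere_subset_closedBall hζ)

theorem Hy.Qsupp (H : Hy T S δ) {ζ : ℂ} (hζ : ζ ∈ sphere (0 : ℂ) 1) (h : ‖dslope T 0 ζ‖ ≠ 1) :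
    ‖T ζ - 1‖ ≤ δ := by
  by_contra hcon
  push Not at hcon
  have h1 : ‖ζ‖ = 1 := by simpa using hζ
  rw [H.Qn h1, H.norm_eq_one h1 hcon] at h
  exact h rfl

/-- test function -/
noncomputable def tf (T : ℂ → ℂ) (δ : ℝ) (w : ℂ) : ℂ := δ / (1 + δ - T w)

theorem Hy.tre (H : Hy T S δ) {w : ℂ} (hw : w ∈ closedBall (0 : ℂ) 1) : δ ≤ (1 + δ - T w).re := by
  have h1 := H.mem_ball_of hw
  have h2 := Complex.re_le_norm (T w)
  simp only [sub_re, add_re, one_re, ofReal_re]
  linarith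

theorem Hy.tne (H : Hy T S δ) {w : ℂ} (hw : w ∈ closedBall (0 : ℂ) 1) : (1 + δ - T w) ≠ 0 := by
  intro h
  have := H.tre hw
  rw [h] at this
  simp only [zero_re] at this
  linarith [H.dp]

theorem Hy.tc (H : Hy T S δ) : ContinuousOn (tf T δ) (closedBall 0 1) := by
  unfold tf
  exact continuousOn_const.div (continuousOn_const.sub H.c) fun w hw => H.tne hw

theorem Hy.tav (H : Hy T S δ) : circleAverage (fun ζ => (tf T δ ζ).re) 0 1 = δ / (1 + δ) := by
  have hd : DiffContOnCl ℂ (tf T δ) (ball 0 |1|) := by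
    rw [abs_one]
    refine ⟨?_, ?_⟩
    · unfold tf
      apply DifferentiableOn.div (differentiableOn_const _)
      · exact (differentiableOn_const _).sub H.d
      · exact fun w hw => H.tne (ball_subset_closedBall hw)
    · rw [closure_ball (0 : ℂ) one_ne_zero]
      exact H.tc
  have h1 := hd.circleAverage
  have hci : CircleIntegrable (tf T δ) 0 1 := by
    have : ContinuousOn (tf T δ) (sphere 0 |1|) := by
      rw [abs_one]
      exact H.tc.mono sphere_subset_closedBall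
    exact this.circleIntegrable'
  have h2 := Complex.reCLM.circleAverage_comp_comm hci
  have h3 : (Complex.reCLM : ℂ → ℝ) ∘ (tf T δ) = fun ζ => (tf T δ ζ).re := rfl
  rw [h3, h1] at h2
  rw [h2]
  simp only [tf, H.z, sub_zero, Complex.reCLM_apply]
  rw [show (δ : ℂ) / (1 + δ) = ((δ / (1 + δ) : ℝ) : ℂ) by push_cast; ring]
  exact Complex.ofReal_re _

theorem Hy.tpos (H : Hy T S δ) {w : ℂ} (hw : w ∈ closedBall (0 : ℂ) 1) : 0 ≤ (tf T δ w).re := by
  unfold tf
  rw [Complex.div_re]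
  simp only [ofReal_re, ofReal_im, zero_mul, zero_div, add_zero]
  have h1 := H.tre hw
  have h2 := H.dp
  exact div_nonneg (mul_nonneg h2.le (by linarith)) (Complex.normSq_nonneg _)

theorem Hy.tge (H : Hy T S δ) {w : ℂ} (hw : w ∈ closedBall (0 : ℂ) 1) (h : ‖T w - 1‖ ≤ δ) :
    1 / 4 ≤ (tf T δ w).re := by
  unfold tf
  rw [Complex.div_re]
  simp only [ofReal_re, ofReal_im, zero_mul, zero_div, add_zero]
  have h1 := H.tre hw
  have h2 := H.dp
  have h3 : ‖1 + (δ : ℂ) - T w‖ ≤ 2 * δ := by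
    have : 1 + (δ : ℂ) - T w = δ - (T w - 1) := by ring
    rw [this]
    have h4 := norm_sub_le (δ : ℂ) (T w - 1)
    rw [Complex.norm_real, Real.norm_eq_abs, abs_of_pos h2] at h4
    linarith
  have h5 : normSq (1 + (δ : ℂ) - T w) ≤ (2 * δ) ^ 2 := by
    rw [Complex.normSq_eq_norm_sq]
    gcongr
  have h6 : 0 < normSq (1 + (δ : ℂ) - T w) := Complex.normSq_pos.2 (H.tne hw)
  rw [div_le_div_iff₀ (by norm_num) h6]
  nlinarith

theorem Hy.S_eq (H : Hy T S δ) : circleAverage (fun ζ => Real.log ‖dslope T 0 ζ‖) 0 1 = -S :=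
  (herglotz H.Qc H.Qd H.Qne H.Q0).1

theorem Hy.S_nonneg (H : Hy T S δ) : 0 ≤ S := by
  have h1 := H.S_eq
  have h2 : 0 ≤ circleAverage (fun ζ => -Real.log ‖dslope T 0 ζ‖) 0 1 := by
    apply circleAverage_nonneg_of_nonneg
    intro x hx
    rw [abs_one] at hx
    have := Real.log_nonpos (norm_nonneg _) (H.Qle x hx)
    linarith
  have h3 : circleAverage (fun ζ => -Real.log ‖dslope T 0 ζ‖) 0 1 =
      -circleAverage (fun ζ => Real.log ‖dslope T 0 ζ‖) 0 1 := by
    have := circleAverage_fun_smul (a := (-1 : ℝ)) (f := fun ζ => Real.log ‖dslope T 0 ζ‖)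
      (c := (0 : ℂ)) (R := (1 : ℝ))
    simpa using this
  linarith

theorem Hy.S_le (H : Hy T S δ) : S ≤ 8 * δ ^ 2 := by
  have h1 := H.S_eq
  have h2 := H.tav
  have h3 : circleAverage (fun ζ => -Real.log ‖dslope T 0 ζ‖) 0 1 = S := by
    have := circleAverage_fun_smul (a := (-1 : ℝ)) (f := fun ζ => Real.log ‖dslope T 0 ζ‖)
      (c := (0 : ℂ)) (R := (1 : ℝ))
    simp only [smul_eq_mul, neg_mul, one_mul] at this
    rw [this, h1]
    ring
  have h4 : circleAverage (fun ζ => -Real.log ‖dslope T 0 ζ‖) 0 1 ≤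
      circleAverage (fun ζ => (8 * δ) • (tf T δ ζ).re) 0 1 := by
    apply circleAverage_mono
    · have : ContinuousOn (fun ζ => -Real.log ‖dslope T 0 ζ‖) (sphere 0 |1|) := by
        rw [abs_one]
        exact ((H.Qc.mono sphere_subset_closedBall).norm.log
          fun w hw => norm_ne_zero_iff.2 (H.Qne w (sphere_subset_closedBall hw))).neg
      exact this.circleIntegrable'
    · have : ContinuousOn (fun ζ => (8 * δ) • (tf T δ ζ).re) (sphere 0 |1|) := by
        rw [abs_one]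
        exact (Complex.continuous_re.comp_continuousOn
          (H.tc.mono sphere_subset_closedBall)).const_smul (8 * δ)
      exact this.circleIntegrable'
    · intro ζ hζ
      rw [abs_one] at hζ
      have hζ' := sphere_subset_closedBall hζ
      have hp := H.tpos hζ'
      have hd := H.dp
      simp only [smul_eq_mul]
      by_cases hne : ‖dslope T 0 ζ‖ = 1
      · rw [hne]
        simp only [Real.log_one, neg_zero]
        positivity
      · have hs := H.Qsupp hζ hne
        have ht := H.tge hζ' hs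
        have h5 : 1 - δ ≤ ‖T ζ‖ := by
          have := norm_sub_norm_le (1 : ℂ) (1 - T ζ)
          rw [norm_one, norm_sub_rev, sub_sub_cancel] at this
          linarith
        have hdl := H.dl
        have h6 : -Real.log ‖dslope T 0 ζ‖ ≤ 2 * δ := by
          rw [H.Qn (by simpa using hζ)]
          have h7 : 0 < ‖T ζ‖ := by linarith
          have h8 := Real.one_sub_inv_le_log_of_pos h7
          have h9 : ‖T ζ‖⁻¹ ≤ 1 + 2 * δ := by
            rw [inv_le_comm₀ h7 (by linarith)]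
            calc (1 + 2 * δ)⁻¹ ≤ 1 - δ := by
                  rw [inv_le_iff_one_le_mul₀ (by linarith)]
                  nlinarith
              _ ≤ _ := h5
          linarith
        nlinarith
  rw [h3, circleAverage_fun_smul, h2, smul_eq_mul] at h4
  have hd := H.dp
  have h5 : δ / (1 + δ) ≤ δ := div_le_self hd.le (by linarith)
  calc S ≤ 8 * δ * (δ / (1 + δ)) := h4
    _ ≤ 8 * δ * δ := by gcongr
    _ = 8 * δ ^ 2 := by ring

/-- an arc of points close to `1` in the image is short -/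
theorem Hy.arc (H : Hy T S δ) {a b : ℝ} (hab : a ≤ b) (hba : b ≤ a + 2 * π)
    (h : ∀ t ∈ Ioo a b, ‖T (ee t) - 1‖ ≤ δ) : b - a ≤ 8 * π * δ := by
  have h1 := H.tav
  rw [circleAverage_eq_integral_add a] at h1
  have hcont : Continuous fun θ : ℝ => (tf T δ (circleMap 0 1 (θ + a))).re := by
    apply Complex.continuous_re.comp
    apply H.tc.comp_continuous
    · exact (continuous_circleMap 0 1).comp (by fun_prop)
    · intro θ
      rw [← ee_eq]
      exact ee_mem' _
  have h2 : (b - a) / 4 ≤ ∫ θ in (0 : ℝ)..(b - a), (tf T δ (circleMap 0 1 (θ + a))).re := by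
    have h3 : (b - a) / 4 = ∫ θ in (0 : ℝ)..(b - a), (1 / 4 : ℝ) := by
      rw [intervalIntegral.integral_const]
      simp
      ring
    rw [h3]
    apply intervalIntegral.integral_mono_on_of_le_Ioo (by linarith) (by simp)
      (hcont.intervalIntegrable _ _)
    intro θ hθ
    rw [← ee_eq]
    exact H.tge (ee_mem' _) (h _ ⟨by linarith [hθ.1], by linarith [hθ.2]⟩)
  have h3 : ∫ θ in (0 : ℝ)..(b - a), (tf T δ (circleMap 0 1 (θ + a))).re ≤
      ∫ θ in (0 : ℝ)..(2 * π), (tf T δ (circleMap 0 1 (θ + a))).re := by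
    apply intervalIntegral.integral_mono_interval le_rfl (by linarith) (by linarith)
    · filter_upwards with θ
      simp only [Pi.zero_apply]
      rw [← ee_eq]
      exact H.tpos (ee_mem' _)
    · exact hcont.intervalIntegrable _ _
  have hd := H.dp
  have h5 : δ / (1 + δ) ≤ δ := div_le_self hd.le (by linarith)
  rw [smul_eq_mul] at h1
  have hpi := Real.pi_pos
  have h6 : ∫ θ in (0 : ℝ)..(2 * π), (tf T δ (circleMap 0 1 (θ + a))).re = 2 * π * (δ / (1 + δ)) := by
    rw [← h1]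
    field_simp
  have h7 : (b - a) / 4 ≤ 2 * π * δ := by
    calc (b - a) / 4 ≤ 2 * π * (δ / (1 + δ)) := by linarith
      _ ≤ 2 * π * δ := by gcongr
  linarith

/-- two points of the circle whose images are close to `1` are close -/
theorem Hy.diam (H : Hy T S δ) {ξ η : ℂ} (hξ : ‖ξ‖ = 1) (hη : ‖η‖ = 1) (h1 : ‖T ξ - 1‖ ≤ δ)
    (h2 : ‖T η - 1‖ ≤ δ) : ‖ξ - η‖ ≤ 26 * δ := by
  have hd := H.dp
  obtain ⟨a, rfl⟩ := exists_ee hξ
  obtain ⟨b, hb, rfl⟩ := exists_ee_Ico hη a
  have hpi := Real.pi_pos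
  have hpi2 : 8 * π * δ ≤ 26 * δ := by
    have : π < 3.15 := Real.pi_lt_d2
    nlinarith
  rcases hb.1.eq_or_lt with h3 | h3
  · rw [h3]
    simp
    positivity
  · have hs := split H.B_conn (fun w hw => hw.1) h3 hb.2 (by
      simp only [mem_setOf_eq, not_and, not_lt]
      exact fun _ => h1) (by
      simp only [mem_setOf_eq, not_and, not_lt]
      exact fun _ => h2)
    rcases hs with hs | hs
    · have h4 := H.arc h3.le (by linarith [hb.2]) (fun t ht => by
        have := hs t ht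
        simp only [mem_setOf_eq, not_and, not_lt] at this
        exact this (ee_norm t))
      have h5 := ee_sub_norm a b
      rw [abs_sub_comm, abs_of_nonneg (by linarith)] at h5
      linarith
    · have h4 := H.arc (a := b) (b := a + 2 * π) (by linarith [hb.2]) (by linarith) (fun t ht => by
        have := hs t ht
        simp only [mem_setOf_eq, not_and, not_lt] at this
        exact this (ee_norm t))
      have h5 := ee_sub_norm (a + 2 * π) b
      rw [ee_period, abs_of_nonneg (by linarith [hb.2])] at h5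
      linarith

/-- `T` is close to the identity off the arc -/
theorem Hy.near (H : Hy T S δ) {ξ : ℂ} (hξ : ‖ξ‖ = 1)
    (h : ∀ ζ : ℂ, ‖ζ‖ = 1 → ‖T ζ - 1‖ ≤ δ → δ ≤ ‖ζ - ξ‖) : ‖T ξ - ξ‖ ≤ 64 * δ := by
  have hd := H.dp
  have hS := H.S_le
  have hS0 := H.S_nonneg
  have hdl := H.dl
  have key : ∀ w ∈ ball (0 : ℂ) 1, ‖w - ξ‖ ≤ δ / 2 → ‖dslope T 0 w - 1‖ ≤ 64 * δ := by
    intro w hw hwξ
    have hMS : 4 / δ * S ≤ 32 * δ := by
      rw [div_mul_eq_mul_div, div_le_iff₀ hd]
      nlinarith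
    have h1 := close (k := 0) H.Qc H.Qd H.Qne H.Q0 H.Qle hw (M := 4 / δ) (by positivity) (by
      intro ζ hζ hne
      have h2 := H.Qsupp hζ hne
      have h3 := h ζ (by simpa using hζ) h2
      have h4 : δ / 2 ≤ ‖ζ - w‖ := by
        have := norm_sub_le_norm_sub_add_norm_sub ζ w ξ
        linarith
      rw [herglotzRieszKernel_def]
      simp only [sub_zero]
      rw [norm_div, div_le_div_iff₀ (by linarith) hd]
      have h5 : ‖ζ + w‖ ≤ 2 := by
        have h6 := norm_add_le ζ w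
        have h7 : ‖ζ‖ = 1 := by simpa using hζ
        have h8 : ‖w‖ < 1 := by simpa using hw
        linarith
      nlinarith) (by linarith)
    simp only [mul_zero, Complex.exp_zero, mul_one] at h1
    linarith
  have hlim : ‖dslope T 0 ξ - 1‖ ≤ 64 * δ := by
    have hr : Tendsto (fun r : ℝ => (r : ℂ) * ξ) (𝓝[<] 1) (𝓝[closedBall 0 1] ξ) := by
      apply tendsto_nhdsWithin_of_tendsto_nhds_of_eventually_within
      · have : Tendsto (fun r : ℝ => (r : ℂ) * ξ) (𝓝[<] 1) (𝓝 (((1 : ℝ) : ℂ) * ξ)) := by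
          apply Tendsto.mono_left _ nhdsWithin_le_nhds
          apply Continuous.tendsto
          fun_prop
        simpa using this
      · have h7 : ∀ᶠ r : ℝ in 𝓝[<] 1, 0 < r := by
          apply Filter.Eventually.filter_mono nhdsWithin_le_nhds
          exact lt_mem_nhds one_pos
        filter_upwards [h7, self_mem_nhdsWithin] with r h0 h1
        simp only [mem_closedBall, dist_zero_right, norm_mul, hξ, mul_one, Complex.norm_real,
          Real.norm_eq_abs, abs_of_pos h0]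
        exact (mem_Iio.1 h1).le
    have h1 := (H.Qc ξ (by simp [hξ])).tendsto.comp hr
    have h2 : Tendsto (fun r : ℝ => ‖dslope T 0 ((r : ℂ) * ξ) - 1‖) (𝓝[<] 1)
        (𝓝 ‖dslope T 0 ξ - 1‖) := (h1.sub_const 1).norm
    apply le_of_tendsto h2
    have h7 : ∀ᶠ r : ℝ in 𝓝[<] 1, 1 - δ / 2 < r := by
      apply Filter.Eventually.filter_mono nhdsWithin_le_nhds
      exact lt_mem_nhds (by linarith)
    filter_upwards [h7, self_mem_nhdsWithin] with r h3 h4
    have h5 : (r : ℝ) < 1 := h4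
    have h6 : (r : ℂ) * ξ - ξ = ((r - 1 : ℝ) : ℂ) * ξ := by
      push_cast
      ring
    apply key
    · simp only [mem_ball, dist_zero_right, norm_mul, hξ, mul_one, Complex.norm_real,
        Real.norm_eq_abs]
      rw [abs_of_pos (by linarith)]
      exact h5
    · rw [h6, norm_mul, hξ, mul_one, Complex.norm_real, Real.norm_eq_abs, abs_of_neg (by linarith)]
      linarith
  have h3 : T ξ - ξ = ξ * (dslope T 0 ξ - 1) := by
    rw [mul_sub, H.Qmul, mul_one]
  rw [h3, norm_mul, hξ, one_mul]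
  exact hlim

/-- surjectivity: a continuous map of an arc that is near the identity -/
theorem Hy.surj (H : Hy T S δ) {τ : ℝ}
    (h : ∀ t : ℝ, |t - τ| ≤ 128 * δ → ‖T (ee t)‖ = 1 ∧ ‖T (ee t) - ee t‖ ≤ 64 * δ) :
    ∃ t : ℝ, |t - τ| ≤ 128 * δ ∧ T (ee t) = ee τ := by
  have hd := H.dp
  have hdl := H.dl
  set a : ℝ := 128 * δ with ha
  have ha0 : 0 < a := by positivity
  have ha1 : a ≤ 1 / 2 := by
    rw [ha]
    linarith
  have hsin : 64 * δ < Real.sin a := by
    have h1 := Real.mul_le_sin ha0.le (by linarith [Real.pi_gt_three])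
    have h2 : π < 3.15 := Real.pi_lt_d2
    have h3 : 64 * δ < 2 / π * a := by
      rw [ha, div_mul_eq_mul_div, lt_div_iff₀ Real.pi_pos]
      nlinarith
    linarith
  have hcos : ∀ s, |s| ≤ a → 64 * δ < Real.cos s := by
    intro s hs
    have h1 := Real.one_sub_sq_div_two_le_cos (x := s)
    have h2 : s ^ 2 ≤ (1 / 2) ^ 2 := by
      rw [← sq_abs]
      gcongr
      linarith
    have h3 : 64 * δ ≤ 64 / 300 := by linarith
    norm_num at h2 h3 ⊢
    linarith
  set F : ℝ → ℂ := fun t => T (ee t) * ee (-τ) with hF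
  have hFc : Continuous F := by
    apply Continuous.mul _ continuous_const
    exact H.c.comp_continuous ee_cont ee_mem'
  have hFd : ∀ t, |t - τ| ≤ a → ‖F t - ee (t - τ)‖ ≤ 64 * δ := by
    intro t ht
    have h1 : F t - ee (t - τ) = (T (ee t) - ee t) * ee (-τ) := by
      rw [hF, sub_mul, ← ee_add]
      simp only [sub_eq_add_neg]
    rw [h1, norm_mul, ee_norm, mul_one]
    exact (h t ht).2
  have hF1 : 0 ≤ (F (τ + a)).im := by
    have h1 := hFd (τ + a) (by simp [abs_of_pos ha0])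
    have h2 := (Complex.abs_im_le_norm (F (τ + a) - ee (τ + a - τ))).trans h1
    rw [sub_im, ee_im, add_sub_cancel_left] at h2
    have := abs_le.1 h2
    linarith
  have hF2 : (F (τ - a)).im ≤ 0 := by
    have h1 := hFd (τ - a) (by simp [abs_of_pos ha0])
    have h2 := (Complex.abs_im_le_norm (F (τ - a) - ee (τ - a - τ))).trans h1
    rw [sub_im, ee_im, show τ - a - τ = -a by ring, Real.sin_neg] at h2
    have := abs_le.1 h2
    linarith
  have hivt : (0 : ℝ) ∈ (fun t => (F t).im) '' Icc (τ - a) (τ + a) :=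
    intermediate_value_Icc (by linarith) (Complex.continuous_im.comp hFc).continuousOn ⟨hF2, hF1⟩
  obtain ⟨t, ht, ht0⟩ := hivt
  have ht' : |t - τ| ≤ a := abs_le.2 ⟨by linarith [ht.1], by linarith [ht.2]⟩
  refine ⟨t, ht', ?_⟩
  have h1 : ‖F t‖ = 1 := by
    rw [hF]
    simp only
    rw [norm_mul, ee_norm, mul_one, (h t ht').1]
  have h2 : 0 < (F t).re := by
    have h3 := (Complex.abs_re_le_norm (F t - ee (t - τ))).trans (hFd t ht')
    rw [sub_re, ee_re] at h3
    have h4 := hcos _ ht'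
    have := abs_le.1 h3
    linarith
  have h3 : F t = 1 := by
    have h4 : (F t).im = 0 := ht0
    have h5 : F t = ((F t).re : ℂ) := Complex.ext (by simp) (by simp [h4])
    rw [h5, Complex.norm_real, Real.norm_eq_abs, abs_of_pos h2] at h1
    rw [h5, h1]
    simp
  have h4 : ee (-τ) * ee τ = 1 := by
    rw [← ee_add]
    simp [ee_zero]
  calc T (ee t) = F t * ee τ := by
        rw [hF]
        simp only
        rw [mul_assoc, h4, mul_one]
    _ = ee τ := by rw [h3, one_mul]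

/-- the arc is near `1` -/
theorem Hy.loc (H : Hy T S δ) {ξ : ℂ} (hξ : ‖ξ‖ = 1) (h : ‖T ξ - 1‖ ≤ δ) : ‖ξ - 1‖ ≤ 156 * δ := by
  have hd := H.dp
  by_contra hcon
  push Not at hcon
  have hfar : ∀ ζ : ℂ, ‖ζ‖ = 1 → ‖T ζ - 1‖ ≤ δ → 130 * δ < ‖ζ - 1‖ := by
    intro ζ h1 h2
    have h3 := H.diam hξ h1 h h2
    have := norm_sub_le_norm_sub_add_norm_sub ξ ζ 1
    linarith
  obtain ⟨t, ht, ht2⟩ := H.surj (τ := 0) (fun t ht => by
    have h1 : ‖ee t - 1‖ ≤ 128 * δ := by
      rw [← ee_zero]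
      exact (ee_sub_norm t 0).trans ht
    have h2 : δ < ‖T (ee t) - 1‖ := by
      by_contra hc
      push Not at hc
      have := hfar _ (ee_norm t) hc
      linarith
    refine ⟨H.norm_eq_one (ee_norm t) h2, H.near (ee_norm t) fun ζ h3 h4 => ?_⟩
    have h5 := hfar ζ h3 h4
    have := norm_sub_le_norm_sub_add_norm_sub ζ (ee t) 1
    linarith)
  rw [ee_zero] at ht2
  have h1 : ‖ee t - 1‖ ≤ 128 * δ := by
    rw [← ee_zero]
    exact (ee_sub_norm t 0).trans ht
  have := hfar _ (ee_norm t) (by rw [ht2]; simpa using hd.le)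
  linarith

theorem Hy.far (H : Hy T S δ) {κ : ℝ} (hκ : 300 * δ ≤ κ) {ξ : ℂ} (hξ : ‖ξ‖ = 1)
    (h : κ ≤ ‖T ξ - 1‖) : κ / 2 ≤ ‖ξ - 1‖ := by
  have hd := H.dp
  have h1 : ‖T ξ‖ = 1 := H.norm_eq_one hξ (by linarith)
  obtain ⟨τ, hτ⟩ := exists_ee h1
  have hfar : ∀ t : ℝ, |t - τ| ≤ 128 * δ → κ - 128 * δ ≤ ‖ee t - 1‖ := by
    intro t ht
    have h2 := ee_sub_norm t τ
    have := norm_sub_le_norm_sub_add_norm_sub (ee τ) (ee t) 1
    rw [norm_sub_rev (ee τ) (ee t)] at this
    rw [hτ] at this h2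
    linarith
  obtain ⟨t, ht, ht2⟩ := H.surj (τ := τ) (fun t ht => by
    have h2 := hfar t ht
    have h3 : δ < ‖T (ee t) - 1‖ := by
      by_contra hc
      push Not at hc
      have := H.loc (ee_norm t) hc
      linarith
    refine ⟨H.norm_eq_one (ee_norm t) h3, H.near (ee_norm t) fun ζ h4 h5 => ?_⟩
    have h6 := H.loc h4 h5
    have := norm_sub_le_norm_sub_add_norm_sub (ee t) ζ 1
    rw [norm_sub_rev (ee t) ζ] at this
    linarith)
  rw [hτ] at ht2
  have h3 := H.i (ee_mem' t) (by simp [hξ]) ht2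
  rw [← h3]
  linarith [hfar t ht]

theorem Hy.exact (H : Hy T S δ) {κ : ℝ} (hκ : 700 * δ ≤ κ) (hκ1 : κ ≤ 1) {ξ : ℂ} (hξ : ‖ξ‖ = 1)
    (h : κ ≤ ‖T ξ - 1‖) :
    ‖ξ - T ξ * Complex.exp (S * ((1 + ξ) / (1 - ξ)))‖ ≤ (14000 / κ ^ 2) * S * δ := by
  have hd := H.dp
  have hS := H.S_le
  have hS0 := H.S_nonneg
  have hdl := H.dl
  have hκ0 : 0 < κ := by linarith
  have hfar := H.far (by linarith) hξ h
  have hMS : 312 * δ / (κ / 8 * (3 * κ / 8)) * S ≤ 1 := by
    rw [div_mul_eq_mul_div, div_le_one (by positivity)]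
    have h1 : δ ≤ κ / 700 := by linarith
    calc 312 * δ * S ≤ 312 * (κ / 700) * (8 * (κ / 700) ^ 2) := by
          gcongr
          calc S ≤ 8 * δ ^ 2 := hS
            _ ≤ 8 * (κ / 700) ^ 2 := by gcongr
      _ = (312 * 8 / 700 ^ 3 * κ) * κ ^ 2 := by ring
      _ ≤ (312 * 8 / 700 ^ 3 * 1) * κ ^ 2 := by gcongr
      _ ≤ κ / 8 * (3 * κ / 8) := by nlinarith
  have key : ∀ w ∈ ball (0 : ℂ) 1, ‖w - ξ‖ ≤ κ / 8 →
      ‖dslope T 0 w * Complex.exp (S * ((1 + w) / (1 - w))) - 1‖ ≤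
        2 * (312 * δ / (κ / 8 * (3 * κ / 8)) * S) := by
    intro w hw hwξ
    apply close (k := (1 + w) / (1 - w)) H.Qc H.Qd H.Qne H.Q0 H.Qle hw (by positivity) _ hMS
    intro ζ hζ hne
    have h2 := H.Qsupp hζ hne
    have h7 : ‖ζ‖ = 1 := by simpa using hζ
    have h3 := H.loc h7 h2
    have h4 : 3 * κ / 8 ≤ ‖1 - w‖ := by
      have := norm_sub_le_norm_sub_add_norm_sub ξ w 1
      rw [norm_sub_rev ξ w, norm_sub_rev w 1] at this
      linarith
    have h5 : κ / 8 ≤ ‖ζ - w‖ := by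
      have := norm_sub_le_norm_sub_add_norm_sub 1 ζ w
      rw [norm_sub_rev 1 ζ] at this
      linarith
    have h8 : ζ - w ≠ 0 := by
      intro h9
      rw [h9, norm_zero] at h5
      linarith
    have h9 : (1 : ℂ) - w ≠ 0 := by
      intro h9
      rw [h9, norm_zero] at h4
      linarith
    have h10 : herglotzRieszKernel 0 w ζ - (1 + w) / (1 - w) =
        2 * w * (1 - ζ) / ((ζ - w) * (1 - w)) := by
      rw [herglotzRieszKernel_def]
      simp only [sub_zero]
      rw [div_sub_div _ _ h8 h9]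
      congr 1
      ring
    rw [h10, norm_div, norm_mul, norm_mul, norm_mul, Complex.norm_ofNat, norm_sub_rev 1 ζ]
    have h11 : ‖w‖ ≤ 1 := by
      have : ‖w‖ < 1 := by simpa using hw
      exact this.le
    apply div_le_div₀ (by positivity) _ (by positivity) (by gcongr)
    calc 2 * ‖w‖ * ‖ζ - 1‖ ≤ 2 * 1 * (156 * δ) := by gcongr
      _ = 312 * δ := by ring
  have hlim : ‖dslope T 0 ξ * Complex.exp (S * ((1 + ξ) / (1 - ξ))) - 1‖ ≤
      2 * (312 * δ / (κ / 8 * (3 * κ / 8)) * S) := by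
    have hr0 : Tendsto (fun r : ℝ => (r : ℂ) * ξ) (𝓝[<] 1) (𝓝 ξ) := by
      have : Tendsto (fun r : ℝ => (r : ℂ) * ξ) (𝓝[<] 1) (𝓝 (((1 : ℝ) : ℂ) * ξ)) := by
        apply Tendsto.mono_left _ nhdsWithin_le_nhds
        apply Continuous.tendsto
        fun_prop
      simpa using this
    have h7 : ∀ᶠ r : ℝ in 𝓝[<] 1, 1 - κ / 8 < r := by
      apply Filter.Eventually.filter_mono nhdsWithin_le_nhds
      exact lt_mem_nhds (by linarith)
    have hr : Tendsto (fun r : ℝ => (r : ℂ) * ξ) (𝓝[<] 1) (𝓝[closedBall 0 1] ξ) := by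
      apply tendsto_nhdsWithin_of_tendsto_nhds_of_eventually_within _ hr0
      filter_upwards [h7, self_mem_nhdsWithin] with r h0 h1
      simp only [mem_closedBall, dist_zero_right, norm_mul, hξ, mul_one, Complex.norm_real,
        Real.norm_eq_abs]
      rw [abs_of_pos (by linarith)]
      exact (mem_Iio.1 h1).le
    have h1 := (H.Qc ξ (by simp [hξ])).tendsto.comp hr
    have h9 : (1 : ℂ) - ξ ≠ 0 := by
      intro h9
      rw [norm_sub_rev, h9, norm_zero] at hfar
      linarith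
    have h10 : Tendsto (fun r : ℝ => Complex.exp (S * ((1 + (r : ℂ) * ξ) / (1 - (r : ℂ) * ξ))))
        (𝓝[<] 1) (𝓝 (Complex.exp (S * ((1 + ξ) / (1 - ξ))))) := by
      apply Tendsto.cexp
      apply Tendsto.const_mul
      exact (tendsto_const_nhds.add hr0).div (tendsto_const_nhds.sub hr0) h9
    have h2 : Tendsto (fun r : ℝ => ‖dslope T 0 ((r : ℂ) * ξ) *
        Complex.exp (S * ((1 + (r : ℂ) * ξ) / (1 - (r : ℂ) * ξ))) - 1‖) (𝓝[<] 1)
        (𝓝 ‖dslope T 0 ξ * Complex.exp (S * ((1 + ξ) / (1 - ξ))) - 1‖) :=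
      ((h1.mul h10).sub_const 1).norm
    apply le_of_tendsto h2
    filter_upwards [h7, self_mem_nhdsWithin] with r h3 h4
    have h5 : (r : ℝ) < 1 := h4
    have h6 : (r : ℂ) * ξ - ξ = ((r - 1 : ℝ) : ℂ) * ξ := by
      push_cast
      ring
    apply key
    · simp only [mem_ball, dist_zero_right, norm_mul, hξ, mul_one, Complex.norm_real,
        Real.norm_eq_abs]
      rw [abs_of_pos (by linarith)]
      exact h5
    · rw [h6, norm_mul, hξ, mul_one, Complex.norm_real, Real.norm_eq_abs, abs_of_neg (by linarith)]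
      linarith
  have h3 : ξ - T ξ * Complex.exp (S * ((1 + ξ) / (1 - ξ))) =
      -ξ * (dslope T 0 ξ * Complex.exp (S * ((1 + ξ) / (1 - ξ))) - 1) := by
    rw [← H.Qmul ξ]
    ring
  rw [h3, norm_mul, norm_neg, hξ, one_mul]
  refine hlim.trans ?_
  have h4 : 2 * (312 * δ / (κ / 8 * (3 * κ / 8)) * S) = (13312 / κ ^ 2) * S * δ := by
    field_simp
    ring
  rw [h4]
  gcongr
  norm_num

end Pool.Agent.H93.SM.R
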